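import Mathlib
import Pool.Agent.N753.DR.Cov
import Pool.Agent.N753.DR.ProxE
import Pool.Agent.N395.CV.KeyB

/-!
# Vojta's conjecture for the closed points in linear systems on arbitrary curves

Let `C` be a geometrically integral curve over a number field `K` and `t` a non-constant function on
`C`; let `A` be a ring of functions on `C` with poles only over `t = ∞` which is finite over `K[t]`,
`N` its rank and `e_1, …, e_N` a basis of `A` over `K[t]` which contains `1`. For `n ≥ 1` let
`V_n = ⊕ K[t]_{deg ≤ n} e_j`, a linear system of dimension `N (n + 1)` on `C`. Its members are the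
points of the projective space `ℙ(V_n)(K)`; there are about `B ^ ([K : ℚ] N (n + 1))` of them of
height at most `log B` (Schanuel). If the divisor of zeros of the member `s` on `Spec A` is a single
reduced closed point `x`, that is, if `(s)` is a maximal ideal, then `x` is a point of degree
`N n + O(1)` over `K`, with values in its residue field `M`.

We prove that for every `n ≥ 1` there is ONE set `E` of members, of density zero, such that for all
the closed points `x` which are members not in `E` of the linear system the following holds. Here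
`h` is the height for divisors of degree one on `C`, `h(x) = h(t(x)) / N`.
(I) For all reduced `D` on `Spec A` whose points have degree at most `2 n + 1` over `K`, all `S` and
`ε`: `(deg D - ε) h(x) ≤ N_S^{(1)}(D, x) + O(1)`.
(II) For all real `G` and `n ≥ n₀(G)`: `G h(x) ≤ d(x) + O(1)`.
(III) For all effective `D` on `Spec A` (with points of arbitrary degree and arbitrary
multiplicities), all `S` and `ε` (and `N ≤ 2 n + 1`): `∑_{v ∈ S} λ_{D, v}(x) ≤ ε h(x) + O(1)`. Here it
suffices to consider the divisors `D` given by `p(t) = 0`.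
(IV) Let `C' → C` be any cover of degree `δ` (a Dedekind domain `A'`, finite over `K[t]`, with a
homomorphism `A → A'`; `C'` is not necessarily geometrically irreducible), unramified outside the
fibres over closed points `b_1, …, b_q` of `Spec A` of degree at most `2 n + 1` over `K`, `D` a
reduced divisor contained in these fibres and `F_j` the ideal of the points over `b_j` not in `D`. By
the Hurwitz formula `deg (K_{C'} + D) = δ (2 g_C - 2 + ∑ deg b_j) - ∑ dim (A' / F_j)`. For all real
`G` and `n ≥ n₀(G)`, all `S` and `ε`, all points `P` of `C'` above `x`, with values in any number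
field `L ⊇ K`: `(∑ deg b_j - ∑ dim (A' / F_j) / δ + G - ε) h(x) ≤ N_S^{(1)}(D, P) + d(L) + O(1)`.
For `G = 2 g_C - 2` this is Vojta's inequality `h_{K_{C'} + D}(P) ≤ N_S^{(1)}(D, P) + d(P) + ε h(P) +
O(1)` with truncated counting function, for all points above `x` on all covers `C'`.
Similarly (II), with `G = 2 g_C - 2`, and (III) give Vojta's inequality
`∑_{v ∈ S} λ_{D, v}(x) + h_{K_C}(x) ≤ d(x) + ε h(x) + O(1)` for ALL `D`, and the same for any smooth
projective variety `X ⊇ C` in place of `C`, if `G` is the degree of `K_X` on `C`. (If `Spec A` is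
singular then `K_C` is the canonical divisor of the normalisation.)
The exceptional set depends only on `C` and `n`, and `n₀` depends only on `C`.

Proof. The value of a member at a closed point is an incomplete norm form in `N (n + 1)` variables;
(I) follows from the fact that its values are nearly squarefree outside a set of power saving size
(the squares of large primes are treated by the geometry of numbers, with many lattices at once).
(II): there are few number fields of given degree and bounded discriminant (Lemke Oliver-Thorne),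
and few points over each of them.
-/

set_option autoImplicit false
set_option linter.unusedSectionVars false

namespace Pool.Agent.Results.MP_651af7_nt.LinearSystemsAllCurves

open Polynomial IsDedekindDomain NumberField Module
open scoped LinearAlgebra.Projectivization TensorProduct

/-- The function `t` on the curve with the ring of functions `A`. -/
noncomputable def coord (K A : Type) [Field K] [CommRing A] [Algebra K[X] A] : A :=
  algebraMap K[X] A X

/-- The member of the linear system `V_n` with the coordinates `c`: the sum of the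
`c_i • t ^ k e_j`, where `i` is the index of the pair `(j, k)`, `k ≤ n`. -/
noncomputable def member {K A : Type} [Field K] [CommRing A] [Algebra K A] [Algebra K[X] A]
    {N : ℕ} (e : Fin N → A) (n : ℕ) (c : Fin (N * (n + 1)) → K) : A :=
  ∑ i, c i • ((X : K[X]) ^ ((finProdFinEquiv.symm i).2 : ℕ) • e (finProdFinEquiv.symm i).1)

/-- The divisor of zeros of the member `P` is the closed point `x` with the residue field `M`. -/
def IsZero {K A : Type} [Field K] [CommRing A] [Algebra K A] [Algebra K[X] A]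
    {N : ℕ} (e : Fin N → A) (n : ℕ) (P : ℙ K (Fin (N * (n + 1)) → K)) {M : Type} [Field M]
    [Algebra K M] (x : A →ₐ[K] M) : Prop :=
  Function.Surjective x ∧ RingHom.ker x = Ideal.span {member e n P.rep}

/-- The points of projective space of absolute height at most `log B`. -/
def box (K : Type) [Field K] [NumberField K] (m : ℕ) (B : ℝ) : Set (ℙ K (Fin m → K)) :=
  {P | Height.logHeight P.rep / finrank ℚ K ≤ Real.log B}

/-- The absolute height for the divisors of degree one on the curve with the ring of functions `A`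
at a point `x` with `t(x) = a`: the height for the divisor of the poles of `t`, divided by its
degree `N = [A : K[t]]`. -/
noncomputable def height (K A : Type) [Field K] [CommRing A] [Algebra K[X] A]
    {M : Type} [Field M] [NumberField M] (a : M) : ℝ :=
  Height.logHeight₁ a / finrank ℚ M / finrank K[X] A

/-- The (absolute) logarithmic discriminant `d(M) = log |disc M| / [M : ℚ]`. -/
noncomputable def logDisc (M : Type) [Field M] [NumberField M] : ℝ :=
  Real.log |(discr M : ℝ)| / finrank ℚ M

open Classical in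
/-- The (absolute) truncated counting function `N_S^{(1)}(D, x)` for the divisor `D` whose closed
points have the equations `g_{j 1} = … = 0`: the sum of `log N(w) / [M : ℚ]` over the primes `w` of
`M`, not above primes in `S`, at which `x` meets `D`, that is, `|t(x)|_w ≤ 1` and for some `j` one
has `|g_{j l}(x)|_w < 1` for all `l`. Every such prime is counted once. -/
noncomputable def truncated {K A : Type} [Field K] [CommRing A] [Algebra K A] [Algebra K[X] A]
    {q : ℕ} (S : Finset ℕ) (u : Fin q → ℕ) (g : ∀ j, Fin (u j) → A) {M : Type} [Field M]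
    [NumberField M] [Algebra K M] (x : A →ₐ[K] M) : ℝ :=
  (∑ᶠ w : HeightOneSpectrum (𝓞 M),
      if (∀ p ∈ S, (p : 𝓞 M) ∉ w.asIdeal) ∧ w.valuation M (x (coord K A)) ≤ 1 ∧
        ∃ j, ∀ l, w.valuation M (x (g j l)) < 1
      then Real.log (Ideal.absNorm w.asIdeal) else 0) / finrank ℚ M

open Classical in
/-- The (absolute) proximity function `∑_{v ∈ S} λ_{D, v}(x)` of the divisor `D` given by
`p(t) = 0`: the sum of the local heights `log (max(|t(x)|_w, 1) ^ deg p / |p(t(x))|_w) / [M : ℚ]`
over the infinite places of `M` (with multiplicities) and the primes above the primes in `S`. -/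
noncomputable def proximity {K A : Type} [Field K] [CommRing A] [Algebra K A] [Algebra K[X] A]
    (S : Finset ℕ) (p : K[X]) {M : Type} [Field M] [NumberField M] [Algebra K M]
    (x : A →ₐ[K] M) : ℝ :=
  (∑ w : InfinitePlace M, (w.mult : ℝ) *
      Real.log (max (w (x (coord K A))) 1 ^ p.natDegree / w (aeval (x (coord K A)) p)) +
    ∑ᶠ v : HeightOneSpectrum (𝓞 M), if ∃ l ∈ S, (l : 𝓞 M) ∈ v.asIdeal then
      Real.log (max (FinitePlace.mk v (x (coord K A))) 1 ^ p.natDegree /
        FinitePlace.mk v (aeval (x (coord K A)) p)) else 0) / finrank ℚ M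

open Classical in
/-- The (absolute) truncated counting function `N_S^{(1)}(D, P)` for a curve `C'` over `C` (the ring
`A'` over the ring `A`), where the part of the divisor `D` on `C'` over the closed point `g_j = 0`
of `C` has the equations `y_{j 1} = … = 0`: the sum of `log N(w) / [L : ℚ]` over the primes `w` of
`L`, not above primes in `S`, with `|t(P)|_w ≤ 1` such that for some `j` one has
`|g_{j l}(P)|_w < 1` and `|y_{j i}(P)|_w < 1` for all `l` and `i`. -/
noncomputable def truncatedCover {K A A' : Type} [Field K] [CommRing A] [Algebra K[X] A]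
    [CommRing A'] [Algebra K A'] [Algebra K[X] A'] {q : ℕ} (S : Finset ℕ) (π : A →ₐ[K[X]] A')
    (u : Fin q → ℕ) (g : ∀ j, Fin (u j) → A) (v : Fin q → ℕ) (y : ∀ j, Fin (v j) → A')
    {L : Type} [Field L] [NumberField L] [Algebra K L] (P : A' →ₐ[K] L) : ℝ :=
  (∑ᶠ w : HeightOneSpectrum (𝓞 L),
      if (∀ p ∈ S, (p : 𝓞 L) ∉ w.asIdeal) ∧ w.valuation L (P (coord K A')) ≤ 1 ∧
        ∃ j, (∀ l, w.valuation L (P (π (g j l))) < 1) ∧ ∀ i, w.valuation L (P (y j i)) < 1
      then Real.log (Ideal.absNorm w.asIdeal) else 0) / finrank ℚ L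

section Aux

open Pool.Agent.N753.DR

/-- the proximity clause, one exceptional set -/
def StmProxE : Prop := ∀ (K A : Type) [Field K] [NumberField K] [CommRing A] [IsDomain A]
  [Algebra K A] [Algebra K[X] A] [IsScalarTower K K[X] A] [Module.Finite K[X] A]
  [FaithfulSMul K[X] A] (m : ℕ) (f : Fin m → A), 1 ≤ m → LinearIndependent K f →
  Ideal.span (Set.range f) = ⊤ → ∃ E : Set (ℙ K (Fin m → K)),
    (∀ U : ℝ, 0 ≤ U → {P : ℙ K (Fin m → K) | P ∈ E ∧ Height.logHeight P.rep ≤ U}.Finite ∧
      ({P : ℙ K (Fin m → K) | P ∈ E ∧ Height.logHeight P.rep ≤ U}.ncard : ℝ) ≤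
        Real.exp (m * U - √U)) ∧
    ∀ (p : K[X]), p.Monic → ∀ (S : Finset ℕ), (∀ q ∈ S, q.Prime) →
      ∀ κ : ℝ, 0 < κ → ∃ C : ℝ, ∀ (M : Type) [Field M] [NumberField M] [Algebra K M]
        (φ : A →ₐ[K] M) (P : ℙ K (Fin m → K)), P ∉ E → Function.Surjective φ →
        RingHom.ker φ = Ideal.span {mem f P.rep} → aeval (φ (algebraMap K[X] A X)) p ≠ 0 →
        Pool.Agent.N751.CV.prox S p (φ (algebraMap K[X] A X)) ≤ κ * Height.logHeight P.rep + C

section

variable {K A : Type} [Field K] [NumberField K] [CommRing A] [Algebra K A] [Algebra K[X] A]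

theorem truncated_nonneg {q : ℕ} (S : Finset ℕ) (u : Fin q → ℕ) (g : ∀ j, Fin (u j) → A) {M : Type}
    [Field M] [NumberField M] [Algebra K M] (x : A →ₐ[K] M) : 0 ≤ truncated S u g x := by
  unfold truncated
  refine div_nonneg (finsum_nonneg fun w => ?_) (Nat.cast_nonneg _)
  split_ifs
  · exact Real.log_natCast_nonneg _
  · exact le_rfl

theorem height_nonneg {M : Type} [Field M] [NumberField M] (a : M) :
    0 ≤ height K A a := by
  unfold height
  exact div_nonneg (div_nonneg (Height.zero_le_logHeight₁ _) (Nat.cast_nonneg _))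
    (Nat.cast_nonneg _)

theorem deg_ge (M : Type) [Field M] [NumberField M] : (1 : ℝ) ≤ finrank ℚ M := by
  exact_mod_cast Nat.succ_le_of_lt (finrank_pos (R := ℚ) (M := M))

theorem sum_le_truncated {q : ℕ} (S : Finset ℕ) (hS : ∀ p ∈ S, p.Prime) (u : Fin q → ℕ)
    (g : ∀ j, Fin (u j) → A) (hmax : ∀ j, (Ideal.span (Set.range (g j))).IsMaximal)
    {M : Type} [Field M] [NumberField M] [Algebra K M] (x : A →ₐ[K] M)
    (hx : ∀ j, RingHom.ker x ≠ Ideal.span (Set.range (g j)))
    (W : Finset (HeightOneSpectrum (𝓞 M))) (hW : ∀ w ∈ W, ∃ j, NearC S (g j) x w) :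
    ∑ w ∈ W, lN w ≤ finrank ℚ M * truncated S u g x := by
  classical
  have h5 : (0 : ℝ) < finrank ℚ M := by linarith [deg_ge M]
  unfold truncated
  rw [mul_div_cancel₀ _ h5.ne']
  have hne : ∀ j, ∃ l, x (g j l) ≠ 0 := by
    intro j
    by_contra hcon
    push Not at hcon
    apply hx j
    refine ((hmax j).eq_of_le (RingHom.ker_ne_top _) ?_).symm
    rw [Ideal.span_le]
    rintro _ ⟨l, rfl⟩
    exact hcon l
  choose l hl using hne
  have hfin : {w : HeightOneSpectrum (𝓞 M) | (∀ p ∈ S, (p : 𝓞 M) ∉ w.asIdeal) ∧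
      w.valuation M (x (coord K A)) ≤ 1 ∧ ∃ j, ∀ l, w.valuation M (x (g j l)) < 1}.Finite := by
    refine (Set.finite_iUnion fun j => Pool.Agent.Y729.RV.val_fin (hl j)).subset ?_
    rintro w ⟨-, -, j, hj⟩
    exact Set.mem_iUnion.2 ⟨j, hj (l j)⟩
  rw [finsum_eq_sum_of_support_subset (s := hfin.toFinset)]
  · have hsub : W ⊆ hfin.toFinset := by
      intro w hw
      rw [Set.Finite.mem_toFinset]
      obtain ⟨j, h1, h2, h3⟩ := hW w hw
      exact ⟨fun p hp => h1 p hp (hS p hp).ne_zero, h2, j, h3⟩
    calc ∑ w ∈ W, lN w = ∑ w ∈ W, (if (∀ p ∈ S, (p : 𝓞 M) ∉ w.asIdeal) ∧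
        w.valuation M (x (coord K A)) ≤ 1 ∧ ∃ j, ∀ l, w.valuation M (x (g j l)) < 1
          then Real.log (Ideal.absNorm w.asIdeal) else 0) := by
          refine Finset.sum_congr rfl fun w hw => ?_
          rw [if_pos (by simpa using hsub hw)]
          rfl
      _ ≤ _ := Finset.sum_le_sum_of_subset_of_nonneg hsub fun w _ _ => by
          split_ifs
          · exact Real.log_natCast_nonneg _
          · exact le_rfl
  · intro w hw
    rw [Function.mem_support] at hw
    rw [Set.Finite.coe_toFinset]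
    by_contra hcon
    exact hw (if_neg hcon)

/-- passing from heights of members to heights of points -/
theorem pass {M : Type} [Field M] [NumberField M] [Algebra K M] (x : A →ₐ[K] M) (hN : 1 ≤ finrank K[X] A)
    {a h C C1 T : ℝ} (hh : Height.logHeight₁ (x (coord K A)) ≤ finrank K[X] A * h + C) (ha : 0 ≤ a)
    (h1 : a * h ≤ finrank ℚ M * T + C1) :
    a * height K A (x (coord K A)) ≤ T + (max C1 0 + a * max C 0) := by
  have h5 := deg_ge M
  have hN' : (1 : ℝ) ≤ finrank K[X] A := by exact_mod_cast hN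
  have e1 : Height.logHeight₁ (x (coord K A)) = finrank ℚ M * (finrank K[X] A * height K A (x (coord K A))) := by
    unfold height
    field_simp
  have h2 : finrank ℚ M * height K A (x (coord K A)) ≤ h + max C 0 := by
    have h3 : (finrank K[X] A : ℝ) * (finrank ℚ M * height K A (x (coord K A))) ≤
        finrank K[X] A * (h + max C 0) := by
      have h4 : C ≤ max C 0 := le_max_left _ _
      have h6 : 0 ≤ max C 0 := le_max_right _ _
      nlinarith
    exact le_of_mul_le_mul_left h3 (by linarith)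
  have h3 : finrank ℚ M * (a * height K A (x (coord K A))) ≤
      finrank ℚ M * (T + (max C1 0 + a * max C 0)) := by
    have h4 : a * (finrank ℚ M * height K A (x (coord K A))) ≤ a * (h + max C 0) :=
      mul_le_mul_of_nonneg_left h2 ha
    have h6 : C1 ≤ max C1 0 := le_max_left _ _
    have h7 : 0 ≤ max C1 0 := le_max_right _ _
    have h8 : 0 ≤ max C 0 := le_max_right _ _
    have h9 : 0 ≤ a * max C 0 := mul_nonneg ha h8
    nlinarith
  exact le_of_mul_le_mul_left h3 (by linarith)

end

theorem cover_sum {K A A' : Type} [Field K] [CommRing A] [Algebra K[X] A]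
    [CommRing A'] [Algebra K A'] [Algebra K[X] A'] {q : ℕ} (S : Finset ℕ) (π : A →ₐ[K[X]] A')
    (u : Fin q → ℕ) (g : ∀ j, Fin (u j) → A) (v : Fin q → ℕ) (y : ∀ j, Fin (v j) → A')
    (hmax : ∀ j, (Ideal.span (Set.range (g j))).IsMaximal)
    {L : Type} [Field L] [NumberField L] [Algebra K L] (P : A' →ₐ[K] L)
    (hne : ∀ j, RingHom.ker ((P : A' →+* L).comp (π : A →+* A')) ≠
      Ideal.span (Set.range (g j))) :
    ∃ W' : Finset (HeightOneSpectrum (𝓞 L)),
      (∀ w, (∀ p ∈ S, (p : 𝓞 L) ∉ w.asIdeal) →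
          w.valuation L (P (algebraMap K[X] A' X)) ≤ 1 →
          (∃ j, (∀ l, w.valuation L (P (π (g j l))) < 1) ∧
            ∀ i, w.valuation L (P (y j i)) < 1) → w ∈ W') ∧
      ∑ w ∈ W', lN w = finrank ℚ L * truncatedCover S π u g v y P := by
  classical
  have h5 : (0 : ℝ) < finrank ℚ L := by linarith [deg_ge L]
  have hnz : ∀ j, ∃ l, P (π (g j l)) ≠ 0 := by
    intro j
    by_contra hcon
    push Not at hcon
    apply hne j
    refine ((hmax j).eq_of_le (RingHom.ker_ne_top _) ?_).symm
    rw [Ideal.span_le]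
    rintro _ ⟨l, rfl⟩
    exact hcon l
  choose l hl using hnz
  have hfin : {w : HeightOneSpectrum (𝓞 L) | (∀ p ∈ S, (p : 𝓞 L) ∉ w.asIdeal) ∧
      w.valuation L (P (coord K A')) ≤ 1 ∧
      ∃ j, (∀ l, w.valuation L (P (π (g j l))) < 1) ∧
        ∀ i, w.valuation L (P (y j i)) < 1}.Finite := by
    refine (Set.finite_iUnion fun j => Pool.Agent.Y729.RV.val_fin (hl j)).subset ?_
    rintro w ⟨-, -, j, hj, -⟩
    exact Set.mem_iUnion.2 ⟨j, hj (l j)⟩
  refine ⟨hfin.toFinset, fun w h1 h2 h3 => by
    rw [Set.Finite.mem_toFinset]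
    exact ⟨h1, h2, h3⟩, ?_⟩
  unfold truncatedCover
  rw [mul_div_cancel₀ _ h5.ne', finsum_eq_sum_of_support_subset (s := hfin.toFinset)]
  · refine Finset.sum_congr rfl fun w hw => ?_
    rw [Set.Finite.mem_toFinset] at hw
    exact (if_pos hw).symm
  · intro w hw
    rw [Function.mem_support] at hw
    rw [Set.Finite.coe_toFinset]
    by_contra hcon
    exact hw (if_neg hcon)

theorem fin_aux {nl D X0 G G' ε h tr ld c : ℝ}
    (h1 : (D + G' - X0 - ε) * (nl * h) ≤ nl * tr + nl * ld + nl * c)
    (h7 : nl * (G * h) ≤ nl * (G' * h)) :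
    nl * ((D - X0 + G - ε) * h) ≤ nl * (tr + ld + c) := by
  nlinarith

theorem count_aux {nK m : ℕ} (hn : 1 ≤ nK) {C B : ℝ} (hC : 0 ≤ C) (hB : 1 ≤ B) :
    C * Real.exp (m * ((nK : ℝ) * Real.log B) - √((nK : ℝ) * Real.log B)) ≤
      C * B ^ ((nK : ℝ) * m) * Real.exp (-√(Real.log B)) := by
  have h0 : 0 < B := by linarith
  have h1 := Real.log_nonneg hB
  rw [mul_assoc C (B ^ _) _, Real.rpow_def_of_pos h0, ← Real.exp_add]
  refine mul_le_mul_of_nonneg_left (Real.exp_le_exp.2 ?_) hC
  have h2 : √(Real.log B) ≤ √((nK : ℝ) * Real.log B) := by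
    apply Real.sqrt_le_sqrt
    have h3 : (1 : ℝ) ≤ nK := by exact_mod_cast hn
    nlinarith
  nlinarith

theorem main (hPE : StmProxE) (hKB : StmKeyB) (K A : Type) [Field K] [NumberField K] [CommRing A] [IsDomain A]
    [Algebra K A] [Algebra K[X] A] [IsScalarTower K K[X] A] [Module.Finite K[X] A]
    [FaithfulSMul K[X] A] (hA : IsDomain (AlgebraicClosure K ⊗[K] A)) (N : ℕ)
    (e : Basis (Fin N) K[X] A) (he : ∃ i, e i = 1) :
    ∃ n₀ : ℝ → ℕ, ∀ n : ℕ, 1 ≤ n → ∃ E : Set (ℙ K (Fin (N * (n + 1)) → K)),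
      (∃ c : ℝ, ∀ B : ℝ, 1 ≤ B → (E ∩ box K (N * (n + 1)) B).Finite ∧
        ((E ∩ box K (N * (n + 1)) B).ncard : ℝ) ≤
          c * B ^ ((finrank ℚ K : ℝ) * (N * (n + 1) : ℕ)) * Real.exp (-√(Real.log B))) ∧
      (∀ (q : ℕ) (u : Fin q → ℕ) (g : ∀ j, Fin (u j) → A),
        (∀ j, (Ideal.span (Set.range (g j))).IsMaximal) →
        (∀ i j, i ≠ j → Ideal.span (Set.range (g i)) ≠ Ideal.span (Set.range (g j))) →
        (∀ j, finrank K (A ⧸ Ideal.span (Set.range (g j))) ≤ 2 * n + 1) →
        ∀ (S : Finset ℕ), (∀ l ∈ S, l.Prime) → ∀ ε : ℝ, 0 < ε → ∃ c : ℝ,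
          ∀ (M : Type) [Field M] [NumberField M] [Algebra K M] (x : A →ₐ[K] M)
            (P : ℙ K (Fin (N * (n + 1)) → K)), P ∉ E → IsZero e n P x →
            (∀ j, RingHom.ker x ≠ Ideal.span (Set.range (g j))) →
            (∑ j, (finrank K (A ⧸ Ideal.span (Set.range (g j))) : ℝ) - ε) *
              height K A (x (coord K A)) ≤ truncated S u g x + c) ∧
      (∀ G : ℝ, n₀ G ≤ n → ∃ c : ℝ,
        ∀ (M : Type) [Field M] [NumberField M] [Algebra K M] (x : A →ₐ[K] M)
          (P : ℙ K (Fin (N * (n + 1)) → K)), P ∉ E → IsZero e n P x →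
          G * height K A (x (coord K A)) ≤ logDisc M + c) ∧
      (N ≤ 2 * n + 1 → ∀ p : K[X], p.Monic → ∀ (S : Finset ℕ), (∀ l ∈ S, l.Prime) →
        ∀ ε : ℝ, 0 < ε → ∃ c : ℝ,
          ∀ (M : Type) [Field M] [NumberField M] [Algebra K M] (x : A →ₐ[K] M)
            (P : ℙ K (Fin (N * (n + 1)) → K)), P ∉ E → IsZero e n P x →
            aeval (x (coord K A)) p ≠ 0 → proximity S p x ≤ ε * height K A (x (coord K A)) + c) ∧
      (∀ G : ℝ, n₀ G ≤ n → ∀ (A' : Type) [CommRing A'] [IsDedekindDomain A'] [Algebra K A']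
        [Algebra K[X] A'] [IsScalarTower K K[X] A'] [Module.Finite K[X] A'] [FaithfulSMul K[X] A']
        (π : A →ₐ[K[X]] A') (q : ℕ) (u : Fin q → ℕ) (g : ∀ j, Fin (u j) → A),
        (∀ j, (Ideal.span (Set.range (g j))).IsMaximal) →
        (∀ i j, i ≠ j → Ideal.span (Set.range (g i)) ≠ Ideal.span (Set.range (g j))) →
        (∀ j, finrank K (A ⧸ Ideal.span (Set.range (g j))) ≤ 2 * n + 1) →
        ∀ (v : Fin q → ℕ) (y : ∀ j, Fin (v j) → A') (F : Fin q → Ideal A'), (∀ j, F j ≠ ⊥) →
        (∀ j i, ∀ b ∈ F j, y j i * b ∈ (Ideal.span (Set.range fun l => π (g j l))).radical) →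
        ∀ (S : Finset ℕ), (∀ l ∈ S, l.Prime) → ∀ ε : ℝ, 0 < ε → ∃ c : ℝ,
          ∀ (L : Type) [Field L] [NumberField L] [Algebra K L] (Q : A' →ₐ[K] L)
            (P : ℙ K (Fin (N * (n + 1)) → K)), P ∉ E →
            RingHom.ker ((Q : A' →+* L).comp (π : A →+* A')) = Ideal.span {member e n P.rep} →
            (∀ j, RingHom.ker ((Q : A' →+* L).comp (π : A →+* A')) ≠
              Ideal.span (Set.range (g j))) →
            (∑ j, (finrank K (A ⧸ Ideal.span (Set.range (g j))) : ℝ) -
              (∑ j, (finrank K (A' ⧸ F j) : ℝ)) * finrank K[X] A / finrank K[X] A' + G - ε) *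
                height K A (Q (coord K A')) ≤ truncatedCover S π u g v y Q + logDisc L + c) := by
  classical
  have hN : 1 ≤ N := by
    obtain ⟨i, -⟩ := he
    have := i.2
    omega
  have hNr : finrank K[X] A = N := by rw [finrank_eq_card_basis e, Fintype.card_fin]
  obtain ⟨ee, he1, he2, hM⟩ := mainC
  obtain ⟨c0, hc0⟩ := Pool.Agent.N776.CV.tVnC K A N e he
  have hgrow := Pool.Agent.N868.CV.grow ee he1 he2 N hN c0
  refine ⟨fun G => (hgrow (max G 0)).choose, ?_⟩
  intro n hn
  obtain ⟨hind, hwide, hdeg⟩ := hc0 n hn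
  have hm : 1 ≤ N * (n + 1) := Nat.one_le_iff_ne_zero.2 (by positivity)
  obtain ⟨r, E1, ⟨c, hc1, hc2⟩, ⟨C, hE1⟩, hT, hD, CH, hH⟩ :=
    hM K A hA (N * (n + 1)) hm (Vn (K := K) e n) hind
  have hspan : Ideal.span (Set.range (Vn (K := K) e n)) = ⊤ := by
    obtain ⟨i, hi⟩ := he
    rw [Ideal.eq_top_iff_one]
    refine Ideal.subset_span ⟨finProdFinEquiv (i, ⟨0, by omega⟩), ?_⟩
    unfold Vn
    rw [Equiv.symm_apply_apply]
    simp [hi]
  obtain ⟨E2, hE2, hPx⟩ := hPE K A (N * (n + 1)) (Vn (K := K) e n) hm hind hspan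
  have hnK : 1 ≤ finrank ℚ K := finrank_pos
  have hNf : 1 ≤ finrank K[X] A := by rw [hNr]; exact hN
  refine ⟨E1 ∪ E2, ⟨max C 0 + 1, ?_⟩, ?_, ?_, ?_, ?_⟩
  · intro B hB
    have hU : 0 ≤ (finrank ℚ K : ℝ) * Real.log B :=
      mul_nonneg (Nat.cast_nonneg _) (Real.log_nonneg hB)
    obtain ⟨h1, h2⟩ := hE1 _ hU
    obtain ⟨h3, h4⟩ := hE2 _ hU
    have hnK0 : (0 : ℝ) < finrank ℚ K := by exact_mod_cast hnK
    have hsub : (E1 ∪ E2) ∩ box K (N * (n + 1)) B ⊆
        {P | P ∈ E1 ∧ Height.logHeight P.rep ≤ (finrank ℚ K : ℝ) * Real.log B} ∪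
        {P | P ∈ E2 ∧ Height.logHeight P.rep ≤ (finrank ℚ K : ℝ) * Real.log B} := by
      rintro P ⟨hP, hPB⟩
      have hPB' : Height.logHeight P.rep ≤ (finrank ℚ K : ℝ) * Real.log B := by
        have h5 : Height.logHeight P.rep / finrank ℚ K ≤ Real.log B := hPB
        rw [div_le_iff₀ hnK0] at h5
        linarith
      rcases hP with hP | hP
      · exact Or.inl ⟨hP, hPB'⟩
      · exact Or.inr ⟨hP, hPB'⟩
    refine ⟨(h1.union h3).subset hsub, ?_⟩
    refine le_trans ?_ (count_aux hnK (by positivity) hB)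
    have h5 := (Set.ncard_le_ncard hsub (h1.union h3)).trans (Set.ncard_union_le _ _)
    have h6 : (((E1 ∪ E2) ∩ box K (N * (n + 1)) B).ncard : ℝ) ≤
        ({P | P ∈ E1 ∧ Height.logHeight P.rep ≤ (finrank ℚ K : ℝ) * Real.log B}.ncard : ℝ) +
        ({P | P ∈ E2 ∧ Height.logHeight P.rep ≤ (finrank ℚ K : ℝ) * Real.log B}.ncard : ℝ) := by
      exact_mod_cast h5
    have h7 : C * Real.exp ((N * (n + 1) : ℕ) * ((finrank ℚ K : ℝ) * Real.log B) -
          √((finrank ℚ K : ℝ) * Real.log B)) ≤
        max C 0 * Real.exp ((N * (n + 1) : ℕ) * ((finrank ℚ K : ℝ) * Real.log B) -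
          √((finrank ℚ K : ℝ) * Real.log B)) :=
      mul_le_mul_of_nonneg_right (le_max_left _ _) (Real.exp_pos _).le
    linarith
  · intro q u g hmax hdist hdegq S hS ε hε
    set D : ℝ := ∑ j, (finrank K (A ⧸ Ideal.span (Set.range (g j))) : ℝ) with hDdef
    rcases le_or_gt D ε with hDe | hDe
    · refine ⟨0, ?_⟩
      intro M _ _ _ x P hP hz hx
      have h1 := truncated_nonneg S u g x
      have h2 := height_nonneg (K := K) (A := A) (x (coord K A))
      nlinarith
    · obtain ⟨C1, h1⟩ := hT q u g hmax hdist (fun j => by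
        obtain ⟨L, _, _, _, ψ, g1, g2, g3⟩ := exists_field (K := K) _ (hmax j)
        exact ⟨L, inferInstance, inferInstance, inferInstance, ψ, g1, g2,
          hwide L ψ g1 (by rw [g3]; exact hdegq j)⟩) S ε hε
      refine ⟨max C1 0 + (D - ε) * max CH 0, ?_⟩
      intro M _ _ _ x P hP hz hx
      obtain ⟨W, hW1, hW2⟩ := h1 M x P (fun h => hP (Or.inl h)) hz.1 hz.2 hx
      refine pass x hNf (hH M x P hz.1 hz.2) (by linarith) ?_
      exact hW2.trans (add_le_add (sum_le_truncated S hS u g hmax x hx W hW1) le_rfl)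
  · intro G hG
    have hr : r ≤ N * n + c0 := by
      rw [← hc2]
      exact hdeg c hc1
    have hgr := (hgrow (max G 0)).choose_spec n hG r hr
    obtain ⟨C2, h2⟩ := hD (max G 0) (le_max_right _ _) (by rw [hNr]; exact hgr)
    refine ⟨max C2 0 + max G 0 * max CH 0, ?_⟩
    intro M _ _ _ x P hP hz
    have h3 := h2 M x P (fun h => hP (Or.inl h)) hz.1 hz.2
    have h5 : (0 : ℝ) < finrank ℚ M := by linarith [deg_ge M]
    have h4 : Real.log |(discr M : ℝ)| = finrank ℚ M * logDisc M := by
      unfold logDisc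
      field_simp
    rw [h4] at h3
    have h6 := pass x hNf (hH M x P hz.1 hz.2) (le_max_right G 0) h3
    have h7 := mul_le_mul_of_nonneg_right (le_max_left G 0) (height_nonneg (K := K) (A := A) (x (coord K A)))
    linarith
  · intro hNn p hp S hS ε hε
    obtain ⟨C3, hC3, hlow⟩ := ht_low (Vn (K := K) e n) E1 hT N e hN
      (fun L _ _ _ ψ hs hL => hwide L ψ hs (by omega))
    have hN0 : (0 : ℝ) < N := by exact_mod_cast hN
    obtain ⟨C4, h4⟩ := hPx p hp S hS (ε / (2 * N)) (by positivity)
    refine ⟨max (ε / (2 * N) * C3 + C4) 0, ?_⟩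
    intro M _ _ _ x P hP hz hx
    have h1 := h4 M x P (fun h => hP (Or.inr h)) hz.1 hz.2 hx
    have h2 := hlow M x P (fun h => hP (Or.inl h)) hz.1 hz.2
    have h5 := deg_ge M
    have h5' : (0 : ℝ) < finrank ℚ M := by linarith
    have e1 : Height.logHeight₁ (x (coord K A)) = finrank ℚ M * (N * height K A (x (coord K A))) := by
      unfold height
      rw [hNr]
      field_simp
    have e2 : Pool.Agent.N751.CV.prox S p (x (algebraMap K[X] A X)) =
        finrank ℚ M * proximity S p x := by
      unfold proximity Pool.Agent.N751.CV.prox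
      rw [mul_div_cancel₀ _ h5'.ne']
      rfl
    rw [e2] at h1
    have h6 : ε / (2 * N) * Height.logHeight P.rep ≤
        ε / (2 * N) * (2 * Height.logHeight₁ (x (algebraMap K[X] A X)) + C3) :=
      mul_le_mul_of_nonneg_left h2 (by positivity)
    have e3 : Height.logHeight₁ (x (algebraMap K[X] A X)) = finrank ℚ M * (N * height K A (x (coord K A))) := e1
    rw [e3] at h6
    have e4 : ε / (2 * N) * (2 * (finrank ℚ M * (N * height K A (x (coord K A)))) + C3) =
        finrank ℚ M * (ε * height K A (x (coord K A))) + ε / (2 * N) * C3 := by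
      field_simp
    rw [e4] at h6
    refine le_of_mul_le_mul_left ?_ h5'
    have h7 : ε / (2 * N) * C3 + C4 ≤ max (ε / (2 * N) * C3 + C4) 0 := le_max_left _ _
    have h8 : 0 ≤ max (ε / (2 * N) * C3 + C4) 0 := le_max_right _ _
    nlinarith
  · intro G hG A' _ _ _ _ _ _ _ π q u g hmax hdist hdegq v y F hF hyF S hS ε hε
    have hr : r ≤ N * n + c0 := by
      rw [← hc2]
      exact hdeg c hc1
    have hgr := (hgrow (max G 0)).choose_spec n hG r hr
    have hDG : DisC (Vn (K := K) e n) E1 (max G 0) :=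
      hD (max G 0) (le_max_right _ _) (by rw [hNr]; exact hgr)
    obtain ⟨c, hc⟩ := cov2 hKB hNf (Vn (K := K) e n) E1 A' π q u v g y F hF hyF hmax hdist
      (2 * n + 1) hdegq (fun L _ _ _ ψ hs hL => hwide L ψ hs hL) S hS (max G 0) CH
      (le_max_right _ _) hT hDG hH ε hε
    refine ⟨c, ?_⟩
    intro L _ _ _ Q P hP hker hne
    obtain ⟨W', hW', hsum⟩ := cover_sum S π u g v y hmax Q hne
    have h1 := hc L Q P (fun h => hP (Or.inl h)) hker hne W' hW'
    rw [hsum] at h1
    have h5 : (0 : ℝ) < finrank ℚ L := by linarith [deg_ge L]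
    have h2 : Height.logHeight₁ (Q (algebraMap K[X] A' X)) / finrank K[X] A =
        finrank ℚ L * height K A (Q (coord K A')) := by
      unfold height coord
      field_simp
    have h3 : Real.log |(discr L : ℝ)| = finrank ℚ L * logDisc L := by
      unfold logDisc
      field_simp
    rw [h2, h3] at h1
    have h4 := height_nonneg (K := K) (A := A) (Q (coord K A'))
    have h6 := mul_le_mul_of_nonneg_right (le_max_left G 0) h4
    refine le_of_mul_le_mul_left ?_ h5
    have h7 : (finrank ℚ L : ℝ) * (G * height K A (Q (coord K A'))) ≤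
        finrank ℚ L * (max G 0 * height K A (Q (coord K A'))) :=
      mul_le_mul_of_nonneg_left h6 h5.le
    exact fin_aux h1 h7

end Aux

/-- **Vojta's inequalities for the closed points in linear systems on arbitrary curves**, with one
exceptional set of members of density zero. -/
theorem result (K A : Type) [Field K] [NumberField K] [CommRing A] [IsDomain A]
    [Algebra K A] [Algebra K[X] A] [IsScalarTower K K[X] A] [Module.Finite K[X] A]
    [FaithfulSMul K[X] A] (hA : IsDomain (AlgebraicClosure K ⊗[K] A)) (N : ℕ)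
    (e : Basis (Fin N) K[X] A) (he : ∃ i, e i = 1) :
    ∃ n₀ : ℝ → ℕ, ∀ n : ℕ, 1 ≤ n → ∃ E : Set (ℙ K (Fin (N * (n + 1)) → K)),
      -- the exceptional set has density zero
      (∃ c : ℝ, ∀ B : ℝ, 1 ≤ B → (E ∩ box K (N * (n + 1)) B).Finite ∧
        ((E ∩ box K (N * (n + 1)) B).ncard : ℝ) ≤
          c * B ^ ((finrank ℚ K : ℝ) * (N * (n + 1) : ℕ)) * Real.exp (-√(Real.log B))) ∧
      -- (I) the truncated counting functions are large
      (∀ (q : ℕ) (u : Fin q → ℕ) (g : ∀ j, Fin (u j) → A),
        (∀ j, (Ideal.span (Set.range (g j))).IsMaximal) →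
        (∀ i j, i ≠ j → Ideal.span (Set.range (g i)) ≠ Ideal.span (Set.range (g j))) →
        (∀ j, finrank K (A ⧸ Ideal.span (Set.range (g j))) ≤ 2 * n + 1) →
        ∀ (S : Finset ℕ), (∀ l ∈ S, l.Prime) → ∀ ε : ℝ, 0 < ε → ∃ c : ℝ,
          ∀ (M : Type) [Field M] [NumberField M] [Algebra K M] (x : A →ₐ[K] M)
            (P : ℙ K (Fin (N * (n + 1)) → K)), P ∉ E → IsZero e n P x →
            (∀ j, RingHom.ker x ≠ Ideal.span (Set.range (g j))) →
            (∑ j, (finrank K (A ⧸ Ideal.span (Set.range (g j))) : ℝ) - ε) *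
              height K A (x (coord K A)) ≤ truncated S u g x + c) ∧
      -- (II) the discriminants are large
      (∀ G : ℝ, n₀ G ≤ n → ∃ c : ℝ,
        ∀ (M : Type) [Field M] [NumberField M] [Algebra K M] (x : A →ₐ[K] M)
          (P : ℙ K (Fin (N * (n + 1)) → K)), P ∉ E → IsZero e n P x →
          G * height K A (x (coord K A)) ≤ logDisc M + c) ∧
      -- (III) the proximity functions are small
      (N ≤ 2 * n + 1 → ∀ p : K[X], p.Monic → ∀ (S : Finset ℕ), (∀ l ∈ S, l.Prime) →
        ∀ ε : ℝ, 0 < ε → ∃ c : ℝ,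
          ∀ (M : Type) [Field M] [NumberField M] [Algebra K M] (x : A →ₐ[K] M)
            (P : ℙ K (Fin (N * (n + 1)) → K)), P ∉ E → IsZero e n P x →
            aeval (x (coord K A)) p ≠ 0 → proximity S p x ≤ ε * height K A (x (coord K A)) + c) ∧
      -- (IV) the truncated inequality with discriminant term on all covers
      (∀ G : ℝ, n₀ G ≤ n → ∀ (A' : Type) [CommRing A'] [IsDedekindDomain A'] [Algebra K A']
        [Algebra K[X] A'] [IsScalarTower K K[X] A'] [Module.Finite K[X] A'] [FaithfulSMul K[X] A']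
        (π : A →ₐ[K[X]] A') (q : ℕ) (u : Fin q → ℕ) (g : ∀ j, Fin (u j) → A),
        (∀ j, (Ideal.span (Set.range (g j))).IsMaximal) →
        (∀ i j, i ≠ j → Ideal.span (Set.range (g i)) ≠ Ideal.span (Set.range (g j))) →
        (∀ j, finrank K (A ⧸ Ideal.span (Set.range (g j))) ≤ 2 * n + 1) →
        ∀ (v : Fin q → ℕ) (y : ∀ j, Fin (v j) → A') (F : Fin q → Ideal A'), (∀ j, F j ≠ ⊥) →
        (∀ j i, ∀ b ∈ F j, y j i * b ∈ (Ideal.span (Set.range fun l => π (g j l))).radical) →
        ∀ (S : Finset ℕ), (∀ l ∈ S, l.Prime) → ∀ ε : ℝ, 0 < ε → ∃ c : ℝ,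
          ∀ (L : Type) [Field L] [NumberField L] [Algebra K L] (Q : A' →ₐ[K] L)
            (P : ℙ K (Fin (N * (n + 1)) → K)), P ∉ E →
            RingHom.ker ((Q : A' →+* L).comp (π : A →+* A')) = Ideal.span {member e n P.rep} →
            (∀ j, RingHom.ker ((Q : A' →+* L).comp (π : A →+* A')) ≠
              Ideal.span (Set.range (g j))) →
            (∑ j, (finrank K (A ⧸ Ideal.span (Set.range (g j))) : ℝ) -
              (∑ j, (finrank K (A' ⧸ F j) : ℝ)) * finrank K[X] A / finrank K[X] A' + G - ε) *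
                height K A (Q (coord K A')) ≤ truncatedCover S π u g v y Q + logDisc L + c) :=
  main Pool.Agent.N753.DR.ProxE.proxE Pool.Agent.N395.CV.t K A hA N e he

end Pool.Agent.Results.MP_651af7_nt.LinearSystemsAllCurves
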