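import Mathlib
import Pool.Agent.N751.PR.Main

/-!
# Vojta's inequality with proximity: arbitrary covers of the line, all divisors, all `S`

Let `K` be a number field, `C_1, …, C_m` smooth projective curves over `K` and `t_i : C_i → ℙ¹`
arbitrary finite maps of degree `N_i` over `K`. Nothing is assumed on the branch points (they may have
any field of definition) or on the ramification over them. Let `A_i` be the ring of the functions on
`C_i` with poles only over `∞`: a Dedekind domain and a free `K[t]`-module of rank `N_i`, and let
`D_i(t)` be the discriminant of a basis. We write `D_i` as a constant times a square times a product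
of `r_i ≥ 0` pairwise coprime nonconstant polynomials without multiple roots, at most one of which has
odd degree: this is always possible with `r_i = 1` or `r_i = 0`, and `r_i = 0` is needed only if `D_i`
is a constant times a square.

Let `X = C_1 × … × C_m` and let `D` be any effective divisor, or any proper closed subscheme, of
`X`. It is contained in the pull-back of an effective divisor `G = 0` of `(ℙ¹)^m`, so that its local
heights are at most those of `G`. A polynomial `G(t_1, …, t_m)` of degree at most `q` in each
variable defines the effective divisor of multidegree `(q, …, q)` with the local heights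
`log (∏_i max(|t_i|_v, 1) ^ q / |G(t_1, …, t_m)|_v)` and with the height `q ∑_i h(t_i)`, and every
effective divisor of this multidegree, including those with components at infinity, is of this form.

We prove that for every `ε > 0` there is ONE set `E ⊆ K ^ m`, containing only `O(B ^ (2 m - ν))` of
the `≍ B ^ (2 m)` tuples of height at most `B`, such that for all `C_i` and `t_i`, all `q ≥ 1`, all
`G` of degree at most `q` in each variable and all finite sets `S` of places of `K` containing the
infinite places, with a constant depending on these data, all points `P` of `X` which lie over some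
`x` not in `E`, outside `G = 0`, and have coordinates of degree `N_i` over `K`, satisfy
`m_S(G, P) + ∑_i r_i (2 - ε) / N_i h(x_i) ≤ d_K(P) + ε q ∑_i h(x_i) + c`.
Here `h` and `m_S` are the absolute ones multiplied by `[K : ℚ]`, and
`d_K(P) = [K : ℚ] (d(P) - d(K))`. (By Hilbert's irreducibility theorem the coordinates of all points
over 100 % of the `x` have degree `N_i`, if `A_i` is an integral domain.)

As `h_{K_X}(P)` is `∑_i (2 g_i - 2) / N_i h(x_i)` up to `ε ∑_i h(x_i) + O(1)`, where `g_i` is the
genus of `C_i`, this is the inequality `m_S(D, P) + h_{K_X}(P) ≤ d_K(P) + ε h_A(P) + O(1)` of the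
conjecture of Vojta, for all divisors `D` and all `S`, as soon as `g_i ≤ r_i + 1` for all `i`, for
example for all curves of genus at most one and all `t_i`, for all curves of genus two and all
`t_i` with `D_i` not a constant times a square, and for all products of such curves.
-/

set_option autoImplicit false

namespace Pool.Agent.Results.MP_651af7_nt.ArbitraryCoversAllDivisors

open Polynomial NumberField Module

/-- Up to a constant and the square of a polynomial, `D` is a product of `r` pairwise coprime
nonconstant polynomials without multiple factors, at most one of which has odd degree. -/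
def HasParts {K : Type} [Field K] (D : K[X]) (r : ℕ) : Prop :=
  ∃ (c : K) (h : K[X]) (g : Fin r → K[X]), D = C c * h ^ 2 * ∏ j, g j ∧
    (∀ j, Squarefree (g j) ∧ 1 ≤ (g j).natDegree) ∧
    ∀ j k, j ≠ k → IsCoprime (g j) (g k) ∧ (Even (g j).natDegree ∨ Even (g k).natDegree)

/-- The logarithmic discriminant `d_K` of a point with the residue field `L`. -/
noncomputable def logDisc (K L : Type) [Field K] [NumberField K] [Field L] [NumberField L]
    [Algebra K L] : ℝ :=
  Real.log |(discr L : ℝ)| / finrank K L - Real.log |(discr K : ℝ)|

/-- The tuples all of whose coordinates have height at most `B`. -/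
def box (K : Type) [Field K] [NumberField K] (m : ℕ) (B : ℝ) : Set (Fin m → K) :=
  {x | ∀ i, Height.mulHeight₁ (x i) ≤ B}

/-- The proximity function `m_S(G, x)` of the effective divisor `G = 0` of `(ℙ¹)^m` of multidegree
`(q, …, q)` at the point `x`: the sum of its local heights over the infinite places (with their
multiplicities) and the finite places in `S`. -/
noncomputable def proximity {K : Type} [Field K] [NumberField K] {m : ℕ} (q : ℕ)
    (G : MvPolynomial (Fin m) K) (S : Finset (FinitePlace K)) (x : Fin m → K) : ℝ :=
  ∑ w : InfinitePlace K, (w.mult : ℝ) *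
      Real.log ((∏ i, max (w (x i)) 1) ^ q / w (MvPolynomial.eval x G)) +
    ∑ v ∈ S, Real.log ((∏ i, max (v (x i)) 1) ^ q / v (MvPolynomial.eval x G))

theorem hasParts_zero {K : Type} [Field K] (D : K[X]) (c : K) (h : K[X]) (hD : D = C c * h ^ 2) :
    HasParts D 0 :=
  ⟨c, h, fun i => i.elim0, by rw [hD]; simp, fun j => j.elim0, fun j => j.elim0⟩

theorem hasParts_one {K : Type} [Field K] (n : ℕ) (D : K[X]) (hn : D.natDegree ≤ n)
    (hD : ∀ (c : K) (h : K[X]), D ≠ C c * h ^ 2) : HasParts D 1 := by
  induction n using Nat.strong_induction_on generalizing D with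
  | _ n ih =>
    have hD0 : D ≠ 0 := fun h => hD 0 1 (by rw [h]; simp)
    by_cases hsq : Squarefree D
    · refine ⟨1, 1, fun _ => D, by simp, fun _ => ⟨hsq, ?_⟩, fun j k hjk => ?_⟩
      · rw [Nat.one_le_iff_ne_zero]
        intro h0
        exact hD (D.coeff 0) 1 (by rw [one_pow, mul_one]; exact eq_C_of_natDegree_eq_zero h0)
      · exact absurd (Subsingleton.elim j k) hjk
    · rw [Squarefree] at hsq
      push Not at hsq
      obtain ⟨y, ⟨z, hz⟩, hy⟩ := hsq
      have hy0 : y ≠ 0 := by rintro rfl; exact hD0 (by rw [hz]; simp)
      have hz0 : z ≠ 0 := by rintro rfl; exact hD0 (by rw [hz]; simp)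
      have hdy : 1 ≤ y.natDegree := by
        rw [Nat.one_le_iff_ne_zero]
        intro h0
        exact hy ((isUnit_iff_degree_eq_zero).2 (by rw [degree_eq_natDegree hy0, h0]; rfl))
      have hdeg : D.natDegree = y.natDegree + y.natDegree + z.natDegree := by
        rw [hz, natDegree_mul (mul_ne_zero hy0 hy0) hz0, natDegree_mul hy0 hy0]
      obtain ⟨c, h, g, h1, h2, h3⟩ := ih z.natDegree (by omega) z le_rfl (fun c h hzc =>
        hD c (y * h) (by rw [hz, hzc]; ring))
      exact ⟨c, y * h, g, by rw [hz]; nth_rewrite 1 [h1]; ring, h2, h3⟩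

open Classical in
theorem proximity_eq {K : Type} [Field K] [NumberField K] {m : ℕ} (q : ℕ)
    (G : MvPolynomial (Fin m) K) (S : Finset (FinitePlace K)) (x : Fin m → K) :
    proximity q G S x = ∑ v ∈ (Finset.univ : Finset (InfinitePlace K)).disjSum
      (S.image FinitePlace.maximalIdeal), Pool.Agent.N751.PR.lamG q G v x := by
  unfold proximity
  rw [Finset.sum_disjSum, Finset.sum_image fun v _ w _ h => FinitePlace.maximalIdeal_injective h]
  congr 1
  refine Finset.sum_congr rfl fun v _ => ?_
  have h : ∀ y : K, Pool.Agent.N751.PR.avp (Sum.inr (FinitePlace.maximalIdeal v)) y = v y := by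
    intro y
    show FinitePlace.mk (FinitePlace.maximalIdeal v) y = v y
    rw [FinitePlace.mk_maximalIdeal]
  unfold Pool.Agent.N751.PR.lamG
  simp only [h]
  exact (one_mul _).symm

/-- **One exceptional set for all curves, all covers, all divisors, all `S` and all products.** -/
theorem result (K : Type) [Field K] [NumberField K] :
    -- every polynomial has one part or none
    (∀ (D : K[X]) (c : K) (h : K[X]), D = C c * h ^ 2 → HasParts D 0) ∧
    (∀ D : K[X], (∀ (c : K) (h : K[X]), D ≠ C c * h ^ 2) → HasParts D 1) ∧
    ∀ (m : ℕ), 0 < m → ∀ ε : ℝ, 0 < ε →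
    ∃ E : Set (Fin m → K),
      -- the exceptional set contains `O(B ^ (2 m - ν))` of the tuples of height at most `B`
      (∃ ν c : ℝ, 0 < ν ∧ ∀ B : ℝ, 1 ≤ B → (box K m B).Finite ∧
        ((E ∩ box K m B).ncard : ℝ) ≤ c * B ^ (2 * (m : ℝ) - ν)) ∧
      -- for all finite free `K[X]`-algebras `A_i` of rank `N_i` with discriminant in `r_i` parts
      ∀ (A : Fin m → Type) [∀ i, CommRing (A i)] [∀ i, Algebra K (A i)] [∀ i, Algebra K[X] (A i)]
        [∀ i, IsScalarTower K K[X] (A i)] (N : Fin m → ℕ) (b : ∀ i, Basis (Fin (N i)) K[X] (A i))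
        (r : Fin m → ℕ), (∀ i, HasParts (Algebra.discr K[X] (b i)) (r i)) →
        -- for all divisors `G = 0` of all multidegrees `(q, …, q)` and all finite sets `S`
        ∀ q : ℕ, 1 ≤ q → ∀ G : MvPolynomial (Fin m) K, (∀ i, G.degreeOf i ≤ q) →
        ∀ S : Finset (FinitePlace K),
        ∃ c : ℝ, ∀ x : Fin m → K, x ∉ E → MvPolynomial.eval x G ≠ 0 →
          ∀ (L : Type) [Field L] [NumberField L] [Algebra K L] (φ : ∀ i, A i →ₐ[K] L),
          -- `P = (φ_i)` is a point of the product over `x` whose coordinates have degree `N_i`
          (∀ i, φ i (algebraMap K[X] (A i) X) = algebraMap K L (x i)) →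
          (∀ i, finrank K (IntermediateField.adjoin K (Set.range (φ i))) = N i) →
          proximity q G S x + ∑ i, r i * (2 - ε) / N i * Height.logHeight₁ (x i) ≤
            logDisc K L + ε * (q * ∑ i, Height.logHeight₁ (x i)) + c := by
  refine ⟨fun D c h hD => hasParts_zero D c h hD, fun D hD => hasParts_one _ D le_rfl hD,
    fun m hm ε hε => ?_⟩
  obtain ⟨E, ⟨ν, c, hν, hE⟩, hmain⟩ := Pool.Agent.N751.PR.mainP K hm hε
  have hbox : ∀ B : ℝ, 1 ≤ B → box K m B ⊆ {x | Pool.Agent.N753.LS.htm x ≤ Real.log B} := by
    intro B hB x hx
    refine Pool.Agent.N753.LS.htm_le hm fun i => ?_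
    exact Real.log_le_log (Height.mulHeight₁_pos _) (hx i)
  refine ⟨E, ⟨ν, c, hν, fun B hB => ⟨(Pool.Agent.N753.LS.box_fin _).subset (hbox B hB), ?_⟩⟩, ?_⟩
  · have h1 := hE (Real.log B) (Real.log_nonneg hB)
    rw [mul_comm (2 * (m : ℝ) - ν), ← Real.rpow_def_of_pos (by linarith)] at h1
    refine le_trans ?_ h1
    exact_mod_cast Set.ncard_le_ncard (Set.inter_subset_inter_right E (hbox B hB))
      ((Pool.Agent.N753.LS.box_fin _).inter_of_right E)
  · classical
    intro A _ _ _ _ N b r hr q hq G hG S
    obtain ⟨c, hc⟩ := hmain A N b r hr q hq G hG ((Finset.univ : Finset (InfinitePlace K)).disjSum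
      (S.image FinitePlace.maximalIdeal))
    refine ⟨c, fun x hx hx0 L _ _ _ φ hφ hdeg => ?_⟩
    have h1 := hc x hx hx0 L φ hφ hdeg
    rw [proximity_eq]
    exact h1

end Pool.Agent.Results.MP_651af7_nt.ArbitraryCoversAllDivisors
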