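import Mathlib
import Pool.Agent.N752.CP.Main2
import Pool.Agent.N747.AC.Ram
import Pool.Agent.N61.AC.Loc

/-!
# Vojta's inequality for closed points of bounded degree: all covers of projective space at once

Let `K` be a number field, `n = [K : ℚ]`, `m ≥ 1`, `n (m + 1) ≥ 3`. Let `X` be a normal projective
variety over `K` and `π : X → ℙ^m` a finite morphism of degree `N` (every projective variety of
dimension `m` has such morphisms). The ring `A` of the functions on `X` which are regular over the
affine space `x_0 ≠ 0` is a normal domain, finite and of rank `N` over `K[z_1, …, z_m]`. Let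
`F_1, …, F_r` be different irreducible forms (components of the branch divisor, or images of
components of `D`) and let `D` be a reduced effective divisor on `X` all of whose components are above
the `F_j = 0`; let `Y_j` be a finite subset of `A` such that the part of `D` above `F_j = 0` is given
by the equations `F_j = 0`, `y = 0` for `y ∈ Y_j`. Let `s_j` be the degree over `F_j = 0` of the union
of the prime divisors above `F_j = 0` which are NOT components of `D` (for `D = 0`: the number of the
sheets of the reduced preimage).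

If `e_V` denotes ramification indices and `R` is the part above the `F_j = 0` of the ramification
divisor `∑ (e_V - 1) V`, the push-forward of `R + D` is `∑ (N - s_j) {F_j = 0}`. So if `P` is a
closed point of `X` above `x ∈ ℙ^m(K)` whose residue field `L` has degree `N` over `K` (by Hilbert's
irreducibility theorem this is so for almost all `x`), then, the conjugates of `P` being the points
above `x`, `h_{R + D}(P) = ∑_j (1 - s_j / N) κ_j h(x) + O(1)`, `κ_j = deg F_j`. Likewise let `I ≠ 0` be
an ideal sheaf on `X` (for example the ideal of an effective divisor) and `R₁ ≠ 0` a form whose inverse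
image is a section of the twist of `I` (take the norm of a section of a twist of `I`). Then the
proximity function `m_{S'}(I, P)` is at most `m_{S'}(R₁, x) + O(1)`.

The forms `F_j` are of degree at most two, or orbits of conjugate hyperplanes: `F_j` is a norm form
`c N_{E/K}(∑ α_i x_i)` of degree `κ_j`, less than three times the dimension of the space spanned by
the `α_i`; for example `κ_j ≤ 3 m + 2` conjugate hyperplanes in general position. Their number is
arbitrary, and their singularities and intersections are arbitrary.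

There is ONE set `E₀` of density zero in `ℙ^m(K)` such that for ALL `X`, `π`, `F_j`, `D`, `I`, `S'`,
all multiplicities `M`, all ideals `(F'_l, G'_l)` of codimension two and all `Λ`, for `ε > 0`, all
closed points `P` of degree `N` above points `x ∉ E₀` with `h(x) > T` satisfy, for ALL finite sets `S`
of primes,

`h_{R + D}(P) + M m_{S'}(I, P) + Λ ∑ h_{(F'_l, G'_l)}(x) ≤ N_S^(1)(D, P) + d(P) + ε h(x) + ∑_{p ∈ S} log p`.

Moreover for each such set of data this holds for all but `C B ^ {n (m + 1) - c}` of the `x` of height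
at most `B`, `c > 0`. As `K_X = R + R' - (m + 1) π^* H`, where `R'` is the rest of the ramification
divisor (above the components of the branch divisor which are not among the `F_j`), this contains
Vojta's inequality `∑_{v ∈ S'} λ_{D', v}(P) + h_{K_X}(P) ≤ d(P) + ε h_A(P) + O(1)` for ALL effective
divisors `D'` and all closed points `P` of degree `N` above almost all `x`, whenever the push-forward
of `R'` has degree at most `(m + 1) N`, in particular if all components of the branch divisor of `π`
are hyperplanes, quadrics or orbits of at most `3 m + 2` conjugate hyperplanes in general position.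
The term with `Λ` bounds the heights relative to all divisors which are contracted to subsets of
codimension at least two of `ℙ^m`: the same inequalities hold for every smooth projective variety
which is birational to `X`.

Proof. At almost all points `x` the truncated counting function of `F_j = 0` is at least
`(κ_j - ε) h(x)` (AllDivisorsNumberFields, MP_9ec3f0_nt). Hence `x` meets `F_j = 0` at almost all
primes `v` (weighted with `log N(v)`) with multiplicity one, outside a given subset of codimension two
and outside `x_0 = 0`. There `A` is, locally, regular, and the norm of a local equation of the union of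
the prime divisors above `F_j = 0` which are not in `D` has order `s_j`; this bounds the number of the
primes of `L` above `v` at which `P` does not meet `D`, and so from below the different of `L` above
`v` (this local part is from MP_8865d3_nt.AllCovers, for products of lines).
-/

set_option autoImplicit false

namespace Pool.Agent.Results.MP_651af7_nt.CoversOfProjectiveSpace

open NumberField IsDedekindDomain Module MvPolynomial
open scoped LinearAlgebra.Projectivization
open Pool.Agent.N752.SU (DensityZero)
open Pool.Agent.N752.HY (hgt prox Outside ldisc)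
open Pool.Agent.R366.NF (idealHeight)

/-- the affine equation `F(1, z_1, …, z_m)` of a form `F` -/
noncomputable def affine {K : Type} [Field K] [NumberField K] {m : ℕ}
    (F : MvPolynomial (Fin (m + 1)) (𝓞 K)) : MvPolynomial (Fin m) K :=
  eval₂ (C.comp (algebraMap (𝓞 K) K)) (Fin.cons 1 X) F

/-- `f` is of degree `κ ≤ 2`, or `f` is a product of `κ` linear forms which span a space of dimension
greater than `κ / 3`. -/
def FullWeight {m : ℕ} (f : MvPolynomial (Fin (m + 1)) ℂ) (κ : ℕ) : Prop :=
  κ ≤ 2 ∨ ∃ a : Fin κ → Fin (m + 1) → ℂ, f = ∏ i, ∑ j, C (a i j) * X j ∧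
    κ < 3 * finrank ℂ (Submodule.span ℂ (Set.range a))

/-- The union of the prime divisors of `Spec A` above the prime divisor `F = 0` of `Spec R` on which
not all elements of `Y` vanish has degree at most `s` over `F = 0`: after inverting an element `g` of
`R` which is not divisible by `F`, the `R`-module `A / {f | Y f ⊆ √(F A)}` is generated by `s`
elements. -/
def SheetsLE {R : Type} (A : Type) [CommRing R] [CommRing A] [Algebra R A] (F : R) (Y : Finset A)
    (s : ℕ) : Prop :=
  ∃ g : R, ¬ F ∣ g ∧ ∃ a : Fin s → A, ∀ b : A, ∃ r : Fin s → R, ∀ y ∈ Y,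
    y * (algebraMap R A g * b - ∑ l, algebraMap R A (r l) * a l) ∈
      (Ideal.span {algebraMap R A F}).radical

/-- the points of `ℙ^m(K)` of absolute logarithmic height at most `T` -/
def Points (K : Type) [Field K] [NumberField K] (m : ℕ) (T : ℝ) :
    Set (ℙ K (Fin (m + 1) → K)) :=
  {Q | hgt Q.rep ≤ T}

/-- the affine coordinates `z_i = x_i / x_0` -/
noncomputable def coords {K : Type} [Field K] {m : ℕ} (x : Fin (m + 1) → K) : Fin m → K :=
  fun i => x i.succ / x 0

open Classical in
/-- the truncated counting function `N_S^(1)(D, P)` of the point `P` given by the homomorphism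
`ψ : A → L` above the point with affine coordinates `z`: the sum of `log N(w) / [L : ℚ]` over the
primes `w` of `L`, not above primes in `S`, at which `z` is integral and `P` meets `D`: for some `j`
one has `|f_j(z)|_w < 1` and `|ψ(y)|_w < 1` for all `y ∈ Y_j` -/
noncomputable def truncated {K : Type} [Field K] [NumberField K] {m r : ℕ} {A : Type} [CommRing A]
    (S : Finset ℕ) (f : Fin r → MvPolynomial (Fin m) K) (Y : Fin r → Finset A) (z : Fin m → K)
    {L : Type} [Field L] [NumberField L] [Algebra K L] (ψ : A →+* L) : ℝ :=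
  (∑ᶠ w : HeightOneSpectrum (𝓞 L),
    if Outside S w ∧ (∀ i, FinitePlace.mk w (algebraMap K L (z i)) ≤ 1) ∧
      ∃ j, FinitePlace.mk w (algebraMap K L (eval z (f j))) < 1 ∧ ∀ y ∈ Y j, FinitePlace.mk w (ψ y) < 1
    then Real.log (Ideal.absNorm w.asIdeal) else 0) / finrank ℚ L

/-- The inequality at the point `Q` of `ℙ^m(K)`: `Q` is not on the divisors `x_0 = 0`, `F_j = 0`,
`R = 0`, and for all closed points of degree `N` of `Spec A` above `Q` and all finite sets `S` of
primes
`(∑_j (1 - s_j / N) κ_j - ε) h(Q) + M m_{S'}(R, Q) + Λ ∑_l h_{(F'_l, G'_l)}(Q) ≤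
  N_S^(1)(D, P) + d(L) + ∑_{p ∈ S} log p`. -/
def Inequality {K : Type} [Field K] [NumberField K] {m : ℕ} (A : Type) [CommRing A] [IsDomain A]
    [Algebra (MvPolynomial (Fin m) K) A] {r t : ℕ}
    (F : Fin r → MvPolynomial (Fin (m + 1)) (𝓞 K)) (κ : Fin r → ℕ) (Y : Fin r → Finset A)
    (s : Fin r → ℕ) (d : ℕ) (R : MvPolynomial (Fin (m + 1)) (𝓞 K)) (S' : Finset ℕ)
    (F' G' : Fin t → MvPolynomial (Fin (m + 1)) (𝓞 K)) (κ' ε' : Fin t → ℕ) (M Λ : ℕ) (ε : ℝ)
    (Q : ℙ K (Fin (m + 1) → K)) : Prop :=
  Q.rep 0 ≠ 0 ∧ (∀ j, aeval Q.rep (F j) ≠ 0) ∧ aeval Q.rep R ≠ 0 ∧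
    ∀ (L : Type) [Field L] [NumberField L] [Algebra K L] (ψ : A →+* L), Function.Surjective ψ →
      Module.finrank K L = Module.finrank (MvPolynomial (Fin m) K) A →
      (∀ f : MvPolynomial (Fin m) K, ψ (algebraMap (MvPolynomial (Fin m) K) A f) =
        algebraMap K L (eval (coords Q.rep) f)) →
      ∀ S : Finset ℕ, (∀ p ∈ S, p.Prime) →
      ((∑ j, (1 - (s j : ℝ) / Module.finrank (MvPolynomial (Fin m) K) A) * κ j) - ε) * hgt Q.rep +
          M * prox K S' R d Q.rep +
          Λ * ((∑ l, idealHeight (F' l) (G' l) (κ' l) (ε' l) Q.rep) / finrank ℚ K) ≤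
        truncated S (fun j => affine (F j)) Y (coords Q.rep) ψ + ldisc L + ∑ p ∈ S, Real.log p

/-- **One exceptional set for all covers of projective space.** Let `K` be a number field with an
embedding `φ` in the complex numbers, `n = [K : ℚ]`, `m ≥ 1` and `n (m + 1) ≥ 3`. There is ONE set
`E₀` of points of `ℙ^m(K)`, of density zero (with respect to the height), with the following
properties.

Let `A` be any normal domain, finite over `K[z_1, …, z_m]` and containing it, of rank `N`; let
`F_1, …, F_r` be forms over `O_K` of degrees `κ_j`, irreducible over `K`, different from `x_0` and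
pairwise not associated, of degree at most two or products over `ℂ` of linear forms which span a
space of dimension greater than `κ_j / 3`; let `Y_1, …, Y_r` be finite subsets of `A` and
`s_1, …, s_r ≤ N` such that the union of the prime divisors above `F_j = 0` on which not all elements
of `Y_j` vanish has degree at most `s_j` over `F_j = 0`. Let `R ≠ 0` be a form of degree `d`, `S'` a
finite set of primes, `(F'_l, G'_l)` pairs of forms, `F'_l` irreducible over `K` and not a divisor of
`G'_l`, `M`, `Λ` natural numbers and `ε > 0`.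

(1) There is `T` such that the inequality holds for ALL `Q ∉ E₀` with `h(Q) > T`.

(2) There are `c > 0` and `C` such that for all `T ≥ 0` at most `C exp ((n (m + 1) - c) T)` points `Q`
with `h(Q) ≤ T` do not satisfy it. -/
theorem result (K : Type) [Field K] [NumberField K] (φ : K →+* ℂ) (m : ℕ) (hm : 1 ≤ m)
    (hd : 3 ≤ finrank ℚ K * (m + 1)) :
    ∃ E₀ : Set (ℙ K (Fin (m + 1) → K)), DensityZero (Points K m) E₀ ∧
      -- for all covers
      ∀ (A : Type) [CommRing A] [IsDomain A] [IsIntegrallyClosed A]
        [Algebra (MvPolynomial (Fin m) K) A] [FaithfulSMul (MvPolynomial (Fin m) K) A]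
        [Module.Finite (MvPolynomial (Fin m) K) A]
        -- all divisors
        (r : ℕ) (F : Fin r → MvPolynomial (Fin (m + 1)) (𝓞 K)) (κ : Fin r → ℕ)
        (Y : Fin r → Finset A) (s : Fin r → ℕ),
        (∀ j, (F j).IsHomogeneous (κ j)) →
        (∀ j, Irreducible (map (algebraMap (𝓞 K) K) (F j))) →
        (∀ j, Irreducible (affine (F j))) →
        (∀ i j, i ≠ j →
          ¬ Associated (map (algebraMap (𝓞 K) K) (F i)) (map (algebraMap (𝓞 K) K) (F j))) →
        (∀ j, FullWeight (map (φ.comp (algebraMap (𝓞 K) K)) (F j)) (κ j)) →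
        (∀ j, SheetsLE A (affine (F j)) (Y j) (s j)) →
        (∀ j, s j ≤ Module.finrank (MvPolynomial (Fin m) K) A) →
        -- all ideals
        ∀ (d : ℕ) (R : MvPolynomial (Fin (m + 1)) (𝓞 K)), R.IsHomogeneous d → R ≠ 0 →
        ∀ S' : Finset ℕ, (∀ p ∈ S', p.Prime) →
        ∀ (t : ℕ) (F' G' : Fin t → MvPolynomial (Fin (m + 1)) (𝓞 K)) (κ' ε' : Fin t → ℕ),
        (∀ l, (F' l).IsHomogeneous (κ' l)) → (∀ l, (G' l).IsHomogeneous (ε' l)) →
        (∀ l, Irreducible (map (algebraMap (𝓞 K) K) (F' l))) →
        (∀ l, ¬ map (algebraMap (𝓞 K) K) (F' l) ∣ map (algebraMap (𝓞 K) K) (G' l)) →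
        ∀ (M Λ : ℕ) (ε : ℝ), 0 < ε →
          (∃ T : ℝ, ∀ Q : ℙ K (Fin (m + 1) → K), Q ∉ E₀ → T < hgt Q.rep →
            Inequality A F κ Y s d R S' F' G' κ' ε' M Λ ε Q) ∧
          ∃ c C : ℝ, 0 < c ∧ ∀ T : ℝ, 0 ≤ T →
            {Q | Q ∈ Points K m T ∧ ¬ Inequality A F κ Y s d R S' F' G' κ' ε' M Λ ε Q}.Finite ∧
            ({Q | Q ∈ Points K m T ∧
                ¬ Inequality A F κ Y s d R S' F' G' κ' ε' M Λ ε Q}.ncard : ℝ) ≤
              C * Real.exp (((finrank ℚ K : ℝ) * (m + 1) - c) * T) := by
  classical
  obtain ⟨E₀, hE₀, hall⟩ := Pool.Agent.N752.CP.main (K := K) (m := m) Pool.Agent.N747.AC.ram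
    (Pool.Agent.N459.AC.nrm Pool.Agent.N61.AC.loc) φ hm hd
  refine ⟨E₀, hE₀, ?_⟩
  intro A _ _ _ _ _ _ r F κ Y s h1 h2 h3 h4 h5 h6 h7 d R hR hR0 S' hS' t F' G' κ' ε' g1 g2 g3 g4
    M Λ ε hε
  obtain ⟨hA, hB⟩ := hall A r F κ Y s h1 h2 h3 h4 h5 h6 h7 d R hR hR0 S' hS' t F' G' κ' ε' g1 g2 g3
    g4 M Λ ε hε
  have key : ∀ Q : ℙ K (Fin (m + 1) → K),
      Pool.Agent.N752.CP.Concl A F κ Y s d R S' F' G' κ' ε' M Λ ε Q →
      Inequality A F κ Y s d R S' F' G' κ' ε' M Λ ε Q := by
    rintro Q ⟨c1, c2, c3, c4⟩
    refine ⟨c1, c2, c3, ?_⟩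
    intro L _ _ _ ψ hψ hfr hcomp S hS
    have c5 := c4 L ψ hψ hfr hcomp
    refine c5.trans ?_
    have hL0 : (0 : ℝ) < finrank ℚ L := by exact_mod_cast finrank_pos
    have hzF : ∀ j, eval (coords Q.rep) (affine (F j)) ≠ 0 := by
      intro j h0
      apply c2 j
      rw [Pool.Agent.N752.CP.deh_eval (h1 j) c1]
      have : eval (fun i : Fin m => Q.rep i.succ / Q.rep 0) (Pool.Agent.N752.CP.deh (F j)) = 0 := h0
      rw [this, mul_zero]
    have hfin := Pool.Agent.N752.CP.hit_finite (fun j => affine (F j)) Y hzF ψ
    have e1 : ∀ S₁ : Finset ℕ, truncated S₁ (fun j => affine (F j)) Y (coords Q.rep) ψ =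
        (∑ w ∈ hfin.toFinset, if Outside S₁ w then Real.log (Ideal.absNorm w.asIdeal : ℝ) else 0) /
          finrank ℚ L := by
      intro S₁
      unfold truncated
      congr 1
      rw [finsum_eq_sum_of_support_subset (s := hfin.toFinset)]
      · refine Finset.sum_congr rfl fun w hw => ?_
        have hw' := (Set.Finite.mem_toFinset _).1 hw
        exact if_congr ⟨fun h => h.1, fun h => ⟨h, hw'.1, hw'.2⟩⟩ rfl rfl
      · intro w hw
        rw [Finset.mem_coe, Set.Finite.mem_toFinset]
        by_contra hc
        exact hw (if_neg fun h => hc ⟨h.2.1, h.2.2⟩)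
    have e2 : (∑ᶠ w : HeightOneSpectrum (𝓞 L), if Pool.Agent.N752.CP.Hit
        (fun j => Pool.Agent.N752.CP.deh (F j)) Y (fun i => Q.rep i.succ / Q.rep 0) ψ w then
          Real.log (Ideal.absNorm w.asIdeal : ℝ) else 0) =
        ∑ w ∈ hfin.toFinset, Real.log (Ideal.absNorm w.asIdeal : ℝ) := by
      rw [finsum_eq_sum_of_support_subset (s := hfin.toFinset)]
      · refine Finset.sum_congr rfl fun w hw => ?_
        exact if_pos ((Set.Finite.mem_toFinset _).1 hw)
      · intro w hw
        rw [Finset.mem_coe, Set.Finite.mem_toFinset]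
        by_contra hc
        exact hw (if_neg hc)
    have h3 := Pool.Agent.N752.HY.Ext.sum_above (L := L) S hS
      (hfin.toFinset.filter fun v => ¬ Outside S v) fun v hv => (Finset.mem_filter.1 hv).2
    rw [Finset.sum_filter] at h3
    have h8 : (∑ w ∈ hfin.toFinset, Real.log (Ideal.absNorm w.asIdeal : ℝ)) / finrank ℚ L ≤
        (∑ w ∈ hfin.toFinset, if Outside S w then Real.log (Ideal.absNorm w.asIdeal : ℝ) else 0) /
          finrank ℚ L + ∑ p ∈ S, Real.log (p : ℝ) := by
      rw [div_add' _ _ _ hL0.ne']
      refine div_le_div_of_nonneg_right ?_ hL0.le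
      rw [mul_comm (∑ p ∈ S, Real.log (p : ℝ))]
      refine le_trans ?_ (add_le_add (le_refl _) h3)
      rw [← Finset.sum_add_distrib]
      refine Finset.sum_le_sum fun v _ => ?_
      by_cases h : Outside S v
      · rw [if_pos h, if_neg (not_not.2 h), add_zero]
      · rw [if_neg h, if_pos h, zero_add]
    rw [e1, e2]
    linarith
  constructor
  · obtain ⟨T, hT⟩ := hA
    exact ⟨T, fun Q hQE hTQ => key Q (hT Q hQE hTQ)⟩
  · obtain ⟨c, C, hc, h⟩ := Pool.Agent.N752.HY.KPts.few_of_aa hB
    refine ⟨c, C, hc, fun T hT =>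
      ⟨(Pool.Agent.N752.HY.KPts.pts_fin T).subset fun Q hQ => hQ.1, ?_⟩⟩
    refine le_trans ?_ (h T hT)
    have hsub : {Q | Q ∈ Points K m T ∧ ¬ Inequality A F κ Y s d R S' F' G' κ' ε' M Λ ε Q} ⊆
        {Q : ℙ K (Fin (m + 1) → K) |
          ¬ Pool.Agent.N752.CP.Concl A F κ Y s d R S' F' G' κ' ε' M Λ ε Q} ∩
          Pool.Agent.N752.HY.KPts.Pts K m T := by
      rintro Q ⟨hQ1, hQ2⟩
      exact ⟨fun hg => hQ2 (key Q hg), hQ1⟩
    exact_mod_cast Set.ncard_le_ncard hsub
      ((Pool.Agent.N752.HY.KPts.pts_fin T).subset Set.inter_subset_right)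

end Pool.Agent.Results.MP_651af7_nt.CoversOfProjectiveSpace
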