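import Mathlib
import Pool.Agent.N751.UE.Cnt
import Pool.Agent.N751.UE.Triv
import Pool.Agent.N751.UE.Univ

/-!
# Vojta's inequality for 100 % of the points: one exceptional set for everything

Let `K` be a number field and `m ≥ 1`. We construct ONE set `E` of `m`-tuples of elements of `K` which
contains at most `2 B ^ (2 m) exp (-√(log B))` of the `≍ B ^ (2 m)` tuples of height at most `B`, so
that its density is zero, and which is exceptional for all of the following at once.

- All number fields `k`, all products `V = C_1 × … × C_m` of smooth projective curves over `k` and all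
  tuples of finite maps `t_i : C_i → ℙ¹` over `k` which are unramified outside the fibres over some
  rational points `a_1, …, a_q ≠ ∞`, `q` arbitrary. By Belyi's theorem every curve over every number
  field has such maps, and every given finite set of points of `C_i` can be assumed to be in the
  fibres over the `a_j`.
- All effective divisors `D` on `V`, with or without normal crossings, of the following form:
  `D = F + G`, where `F = ∑_i ∑_j pr_i^* F_{i j}` is the sum of the reduced fibres `F_{i j}` of the
  `t_i` over the `a_j`, and `G` is the pull-back of an arbitrary effective divisor of `(ℙ¹)^m` over `K`,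
  of any multidegree. Every effective divisor and every proper closed subscheme of `V` over `ℚ`
  (or over `k` if `k ⊆ K`) is contained in such a divisor `G`, so that its local heights are at most
  those of `G` up to a constant.
- All finite sets `S` of places and all `κ > 0`.

For all these data there is a constant `c` such that all points `P` of `V` over all tuples `x` not in
`E`, off `D`, all number fields `L` containing `k` and `K` over which `P` is defined, satisfy
`m_S(F, P) + m_T(G, P) + ∑_i (2 + (deg K_{C_i}) / N_i - κ) h(x_i) ≤ d(L) + ∑_{p ∈ S} log p + c`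
for all finite sets `S` of rational primes and for the given finite set `T` of places of `K`, where
`N_i` is the degree of `t_i`. As `h_{K_V}(P)` is `∑_i (deg K_{C_i}) / N_i h(x_i)` up to
`ε ∑_i h(x_i) + O(1)`, this is the inequality `m_S(D, P) + h_{K_V}(P) ≤ d(P) + ε h_A(P) + O(1)` of the
conjecture of Vojta, with the additional term `(2 - κ) ∑_i h(x_i)` on the left side.

Let `A_i` be the ring of the functions on `C_i` with poles only over `∞`: a Dedekind domain, finite
over `k[t]`. Let `y_{i j 0} = t - a_j, y_{i j 1}, …` be generators of the radical of the ideal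
`(t - a_j)` of `A_i`, the ideal of `F_{i j}`. Then
`2 + (deg K_{C_i}) / N_i = q - (∑_j dim (A_i / (y_{i j 0}, y_{i j 1}, …))) / N_i`. The local height of
`F_{i j}` at a place `v` is `max(0, - log max_l |y_{i j l}(P)|_v)`, and the local height of the
divisor `G = 0` of multidegree `(n, …, n)`, where `G(t_1, …, t_m)` is a polynomial of degree at most
`n` in each variable, is `log (∏_i max(|t_i|_v, 1) ^ n / |G(t_1, …, t_m)|_v)`.
-/

set_option autoImplicit false

namespace Pool.Agent.Results.MP_651af7_nt.UniversalExceptionalSet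

open Polynomial IsDedekindDomain NumberField

/-- The function `t` on the curve with the ring of functions `A`. -/
noncomputable def coord (k A : Type) [Field k] [CommRing A] [Algebra k[X] A] : A :=
  algebraMap k[X] A X

/-- The absolute logarithmic height of the point `x` of the line. -/
noncomputable def height {K : Type} [Field K] [NumberField K] (x : K) : ℝ :=
  Height.logHeight₁ x / Module.finrank ℚ K

/-- `max (0, - log max_l c_l)` -/
noncomputable def minusLog {s : ℕ} (c : Fin (s + 1) → ℝ) : ℝ := max 0 (-Real.log (⨆ l, c l))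

open Classical in
/-- The proximity function `m_S(F, P)`: the sum over the infinite places `w` (with
`mult w = [L_w : ℝ]`) and the primes `v` above the primes of `S` of the local heights of `F`, divided
by `[L : ℚ]`. The absolute values are normalised so that the product formula holds:
`|b|_v = N(v) ^ (- v(b))`. -/
noncomputable def proximity {k : Type} [Field k] {m q : ℕ} {A : Fin m → Type}
    [∀ i, CommRing (A i)] [∀ i, Algebra k (A i)] (S : Finset ℕ)
    (u : Fin m → Fin q → ℕ) (y : ∀ i j, Fin (u i j + 1) → A i)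
    {L : Type} [Field L] [NumberField L] [Algebra k L] (φ : ∀ i, A i →ₐ[k] L) : ℝ :=
  (∑ w : InfinitePlace L, (w.mult : ℝ) * (∑ i, ∑ j, minusLog (fun l => w (φ i (y i j l)))) +
    ∑ᶠ v : HeightOneSpectrum (𝓞 L), if ∃ p ∈ S, (p : 𝓞 L) ∈ v.asIdeal then
      (∑ i, ∑ j, minusLog (fun l => FinitePlace.mk v (φ i (y i j l)))) else 0) /
    Module.finrank ℚ L

/-- The proximity function `m_T(G, x)` of the effective divisor `G = 0` of `(ℙ¹)^m` of multidegree
`(n, …, n)` at the point `x`: the sum of its local heights over the infinite places (with their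
multiplicities) and the finite places in `T`, divided by `[K : ℚ]`. -/
noncomputable def proximityG {K : Type} [Field K] [NumberField K] {m : ℕ} (n : ℕ)
    (G : MvPolynomial (Fin m) K) (T : Finset (FinitePlace K)) (x : Fin m → K) : ℝ :=
  (∑ w : InfinitePlace K, (w.mult : ℝ) *
      Real.log ((∏ i, max (w (x i)) 1) ^ n / w (MvPolynomial.eval x G)) +
    ∑ v ∈ T, Real.log ((∏ i, max (v (x i)) 1) ^ n / v (MvPolynomial.eval x G))) /
    Module.finrank ℚ K

/-- The (absolute) logarithmic discriminant `d(L) = log |disc L| / [L : ℚ]`. -/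
noncomputable def logDisc (L : Type) [Field L] [NumberField L] : ℝ :=
  Real.log |(NumberField.discr L : ℝ)| / Module.finrank ℚ L

/-- `q - (∑_j dim (A / (y_{j 0}, y_{j 1}, …))) / N`, where `N` is the rank of `A` over `k[t]`. -/
noncomputable def degree (k : Type) {A : Type} [Field k] [CommRing A] [Algebra k A]
    [Algebra k[X] A] {q : ℕ} {u : Fin q → ℕ} (y : ∀ j, Fin (u j + 1) → A) : ℝ :=
  q - (∑ j, (Module.finrank k (A ⧸ Ideal.span (Set.range (y j))) : ℝ)) / Module.finrank k[X] A

/-- The tuples all of whose coordinates have height at most `B`. -/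
def box (K : Type) [Field K] [NumberField K] (m : ℕ) (B : ℝ) : Set (Fin m → K) :=
  {x | ∀ i, Height.mulHeight₁ (x i) ≤ B}

open Classical in
theorem proximityG_eq {K : Type} [Field K] [NumberField K] {m : ℕ} (n : ℕ)
    (G : MvPolynomial (Fin m) K) (S : Finset (FinitePlace K)) (x : Fin m → K) :
    proximityG n G S x = (∑ v ∈ (Finset.univ : Finset (InfinitePlace K)).disjSum
      (S.image FinitePlace.maximalIdeal), Pool.Agent.N751.PR.lamG n G v x) /
        Module.finrank ℚ K := by
  unfold proximityG
  rw [Finset.sum_disjSum, Finset.sum_image fun v _ w _ h => FinitePlace.maximalIdeal_injective h]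
  congr 2
  refine Finset.sum_congr rfl fun v _ => ?_
  have h : ∀ y : K, Pool.Agent.N751.PR.avp (Sum.inr (FinitePlace.maximalIdeal v)) y = v y := by
    intro y
    show FinitePlace.mk (FinitePlace.maximalIdeal v) y = v y
    rw [FinitePlace.mk_maximalIdeal]
  unfold Pool.Agent.N751.PR.lamG
  simp only [h]
  exact (one_mul _).symm

theorem proximity_eq {k : Type} [Field k] {m q : ℕ} {A : Fin m → Type}
    [∀ i, CommRing (A i)] [∀ i, Algebra k (A i)] [∀ i, Algebra k[X] (A i)] (S : Finset ℕ)
    (u : Fin m → Fin q → ℕ) (y : ∀ i j, Fin (u i j + 1) → A i)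
    {L : Type} [Field L] [NumberField L] [Algebra k L] (φ : ∀ i, A i →ₐ[k] L) :
    OneExceptionalSet.proximity S u y ∅ φ = proximity S u y φ := by
  unfold OneExceptionalSet.proximity proximity
  simp only [Finset.sum_empty, add_zero]
  rfl

theorem logDisc_nonneg (L : Type) [Field L] [NumberField L] : 0 ≤ logDisc L := by
  unfold logDisc
  refine div_nonneg (Real.log_nonneg ?_) (Nat.cast_nonneg _)
  have h : (1 : ℤ) ≤ |NumberField.discr L| := Int.one_le_abs (NumberField.discr_ne_zero L)
  exact_mod_cast h

/-- The inequality for the reduced fibres. -/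
def Ineq (K : Type) [Field K] [NumberField K] (m q : ℕ) (a : Fin q → ℚ) (κ : ℝ)
    (E : Set (Fin m → K)) : Prop :=
  ∀ (k : Type) [Field k] [NumberField k] (A : Fin m → Type)
    [∀ i, CommRing (A i)] [∀ i, IsDedekindDomain (A i)] [∀ i, Algebra k (A i)]
    [∀ i, Algebra k[X] (A i)] [∀ i, IsScalarTower k k[X] (A i)]
    [∀ i, Module.Finite k[X] (A i)] [∀ i, FaithfulSMul k[X] (A i)]
    (u : Fin m → Fin q → ℕ) (y : ∀ i j, Fin (u i j + 1) → A i),
    (∀ i j, y i j 0 = coord k (A i) - algebraMap k (A i) (algebraMap ℚ k (a j))) →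
    (∀ i j l, y i j l ∈
      (Ideal.span {coord k (A i) - algebraMap k (A i) (algebraMap ℚ k (a j))}).radical) →
    ∃ c : ℝ, ∀ x : Fin m → K, x ∉ E → (∀ i j, x i ≠ algebraMap ℚ K (a j)) →
      ∀ (L : Type) [Field L] [NumberField L] [Algebra K L] [Algebra k L] (φ : ∀ i, A i →ₐ[k] L),
        (∀ i, φ i (coord k (A i)) = algebraMap K L (x i)) →
        ∀ S : Finset ℕ, (∀ p ∈ S, p.Prime) →
          proximity S u y φ + ∑ i, (degree k (y i) - κ) * height (x i) ≤
            logDisc L + ∑ p ∈ S, Real.log p + c

theorem ineq_of {K : Type} [Field K] [NumberField K] {m q : ℕ} (hm : 0 < m) (hq : 3 ≤ q)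
    {a : Fin q → ℚ} (ha : Function.Injective a) {κ : ℝ} (hκ : 0 < κ) :
    ∃ E : Set (Fin m → K), Ineq K m q a κ E ∧ ∃ C ν : ℝ, 0 < ν ∧ ∀ H : ℝ, 0 ≤ H →
      (((E ∩ {x | ∀ i j, x i ≠ algebraMap ℚ K (a j)}) ∩
        {x | Pool.Agent.N753.LS.htm x ≤ H}).ncard : ℝ) ≤ C * Real.exp ((2 * m - ν) * H) := by
  obtain ⟨h1, h2⟩ := OneExceptionalSet.result K q hq a ha m hm
  obtain ⟨E, hE1, -, hE2⟩ := h2 κ hκ
  refine ⟨E, ?_, Pool.Agent.N751.UE.few hq a (fun X hX => ?_) hE1⟩
  · intro k _ _ A _ _ _ _ _ _ _ u y hy0 hyr
    obtain ⟨c, hc⟩ := hE2 k A u y hy0 hyr ∅ (fun p hp => absurd hp (Finset.notMem_empty p))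
    refine ⟨c, fun x hx hxa L _ _ _ _ φ hφ S hS => ?_⟩
    have h3 := hc x hx hxa L φ hφ S hS
    rw [proximity_eq] at h3
    exact h3
  · obtain ⟨⟨C, hC⟩, -⟩ := h1 1 one_pos
    exact (hC X hX).1

/-- **One exceptional set for all curves, all maps, all products, all divisors, all `S`, all `κ`.** -/
theorem result (K : Type) [Field K] [NumberField K] (m : ℕ) (hm : 0 < m) :
    ∃ E : Set (Fin m → K),
      -- the density of the exceptional set is zero
      (∀ B : ℝ, 1 ≤ B → (box K m B).Finite ∧
        ((E ∩ box K m B).ncard : ℝ) ≤ 2 * B ^ (2 * m) * Real.exp (-√(Real.log B))) ∧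
      -- for all finite sets of rational points of the line
      ∀ q : ℕ, 3 ≤ q → ∀ a : Fin q → ℚ, Function.Injective a →
      -- for all curves and maps over all number fields, with generators of the reduced fibres
      ∀ (k : Type) [Field k] [NumberField k] (A : Fin m → Type)
        [∀ i, CommRing (A i)] [∀ i, IsDedekindDomain (A i)] [∀ i, Algebra k (A i)]
        [∀ i, Algebra k[X] (A i)] [∀ i, IsScalarTower k k[X] (A i)]
        [∀ i, Module.Finite k[X] (A i)] [∀ i, FaithfulSMul k[X] (A i)]
        (u : Fin m → Fin q → ℕ) (y : ∀ i j, Fin (u i j + 1) → A i),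
        (∀ i j, y i j 0 = coord k (A i) - algebraMap k (A i) (algebraMap ℚ k (a j))) →
        (∀ i j l, y i j l ∈
          (Ideal.span {coord k (A i) - algebraMap k (A i) (algebraMap ℚ k (a j))}).radical) →
        -- for all divisors `G = 0` of all multidegrees `(n, …, n)`, all `T` and all `κ`
        ∀ n : ℕ, 1 ≤ n → ∀ G : MvPolynomial (Fin m) K, (∀ i, G.degreeOf i ≤ n) →
        ∀ (T : Finset (FinitePlace K)) (κ : ℝ), 0 < κ →
        ∃ c : ℝ, ∀ x : Fin m → K, x ∉ E → (∀ i j, x i ≠ algebraMap ℚ K (a j)) →
          MvPolynomial.eval x G ≠ 0 →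
          -- for all points `P = (φ_i)` over `x` and all `S`
          ∀ (L : Type) [Field L] [NumberField L] [Algebra K L] [Algebra k L]
            (φ : ∀ i, A i →ₐ[k] L),
            (∀ i, φ i (coord k (A i)) = algebraMap K L (x i)) →
            ∀ S : Finset ℕ, (∀ p ∈ S, p.Prime) →
              proximity S u y φ + proximityG n G T x +
                  ∑ i, (degree k (y i) - κ) * height (x i) ≤
                logDisc L + ∑ p ∈ S, Real.log p + c := by
  classical
  obtain ⟨E, hcount, hA, hB⟩ := Pool.Agent.N751.UE.exists_univ K hm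
    (fun q a κ E => Ineq K m q a κ E) (fun q a => {x | ∀ i j, x i ≠ algebraMap ℚ K (a j)})
    (fun q hq a ha κ hκ => ineq_of hm hq ha hκ)
  have hbox : ∀ B : ℝ, 1 ≤ B → box K m B ⊆ {x | Pool.Agent.N753.LS.htm x ≤ Real.log B} := by
    intro B hB x hx
    refine Pool.Agent.N753.LS.htm_le hm fun i => ?_
    exact Real.log_le_log (Height.mulHeight₁_pos _) (hx i)
  refine ⟨E, fun B hB => ⟨(Pool.Agent.N753.LS.box_fin _).subset (hbox B hB), ?_⟩, ?_⟩
  · have h1 := hcount (Real.log B) (Real.log_nonneg hB)
    have h2 : Real.exp (2 * m * Real.log B - √(Real.log B)) =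
        B ^ (2 * m) * Real.exp (-√(Real.log B)) := by
      rw [sub_eq_add_neg, Real.exp_add]
      congr 1
      have h3 : (2 * (m : ℝ)) * Real.log B = ((2 * m : ℕ) : ℝ) * Real.log B := by push_cast; ring
      rw [h3, Real.exp_nat_mul, Real.exp_log (by linarith)]
    rw [h2, ← mul_assoc] at h1
    refine le_trans ?_ h1
    exact_mod_cast Set.ncard_le_ncard (Set.inter_subset_inter_right E (hbox B hB))
      ((Pool.Agent.N753.LS.box_fin _).inter_of_right E)
  intro q hq a ha k _ _ A _ _ _ _ _ _ _ u y hy0 hyr n hn G hG T κ hκ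
  have hnR : (1 : ℝ) ≤ n := by exact_mod_cast hn
  obtain ⟨d, hd⟩ : ∃ d : ℝ, d = (Module.finrank ℚ K : ℝ) := ⟨_, rfl⟩
  have hd0 : 0 < d := by rw [hd]; exact_mod_cast Module.finrank_pos
  obtain ⟨κ', E', hκ'0, hκ', hI, hF1⟩ := hA q hq a ha (κ / 2) (by positivity)
  obtain ⟨ε', E'', hε'0, hε', hJ, hF2⟩ := hB (κ / (2 * n)) (by positivity)
  obtain ⟨c1, hc1⟩ := hI k A u y hy0 hyr
  obtain ⟨c3, hc3⟩ := hJ n hn G hG ((Finset.univ : Finset (InfinitePlace K)).disjSum
    (T.image FinitePlace.maximalIdeal))
  -- the constants for the remaining points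
  obtain ⟨t2, ht2⟩ : ∃ t2 : (Fin m → K) → ℝ, t2 = fun x =>
    (∑ i, ∑ j, Height.logHeight₁ (x i - algebraMap ℚ K (a j))) / d +
      ∑ i, (degree k (y i) - κ / 2) * height (x i) := ⟨_, rfl⟩
  obtain ⟨c2, hc2⟩ : ∃ c2 : ℝ, c2 = ∑ x ∈ hF1.toFinset, |t2 x| := ⟨_, rfl⟩
  obtain ⟨c4, hc4⟩ : ∃ c4 : ℝ, c4 = ∑ x ∈ hF2.toFinset, |proximityG n G T x| := ⟨_, rfl⟩
  have hc20 : 0 ≤ c2 := by rw [hc2]; exact Finset.sum_nonneg fun x _ => abs_nonneg _
  have hc40 : 0 ≤ c4 := by rw [hc4]; exact Finset.sum_nonneg fun x _ => abs_nonneg _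
  refine ⟨|c1| + c2 + (|c3| / d + c4), ?_⟩
  intro x hxE hxa hxG L _ _ _ _ φ hφ S hS
  have hh : ∀ i, 0 ≤ height (x i) := fun i =>
    div_nonneg (Height.zero_le_logHeight₁ _) (Nat.cast_nonneg _)
  have hlogp : 0 ≤ ∑ p ∈ S, Real.log p := Finset.sum_nonneg fun p hp =>
    Real.log_nonneg (by exact_mod_cast (hS p hp).one_lt.le)
  -- the first part
  have hfirst : proximity S u y φ + ∑ i, (degree k (y i) - κ / 2) * height (x i) ≤
      logDisc L + ∑ p ∈ S, Real.log p + (|c1| + c2) := by
    by_cases hx' : x ∈ E'
    · have hxF : x ∈ hF1.toFinset := by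
        rw [Set.Finite.mem_toFinset]
        exact ⟨⟨hx', hxa⟩, hxE⟩
      have h1 : |t2 x| ≤ c2 := by
        rw [hc2]
        exact Finset.single_le_sum (f := fun x => |t2 x|) (fun _ _ => abs_nonneg _) hxF
      have h2 := (le_abs_self (t2 x)).trans h1
      have h3 : proximity S u y φ ≤
          (∑ i, ∑ j, Height.logHeight₁ (x i - algebraMap ℚ K (a j))) / d := by
        rw [hd]
        refine Pool.Agent.N751.UE.prox_triv u (fun i j l => φ i (y i j l))
          (fun i j => x i - algebraMap ℚ K (a j)) (fun i j => sub_ne_zero.2 (hxa i j))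
          (fun i j => ?_) (fun v => ∃ p ∈ S, (p : 𝓞 L) ∈ v.asIdeal)
        show φ i (y i j 0) = _
        rw [hy0, map_sub, hφ, AlgHom.commutes, map_sub]
        congr 1
        rw [eq_ratCast, eq_ratCast, map_ratCast, map_ratCast]
      have h4 := logDisc_nonneg L
      have h5 := abs_nonneg c1
      rw [ht2] at h2
      beta_reduce at h2
      linarith
    · have h1 := hc1 x hx' hxa L φ hφ S hS
      have h2 : ∑ i, (degree k (y i) - κ / 2) * height (x i) ≤
          ∑ i, (degree k (y i) - κ') * height (x i) :=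
        Finset.sum_le_sum fun i _ => mul_le_mul_of_nonneg_right (by linarith) (hh i)
      have h3 := le_abs_self c1
      linarith
  -- the second part
  have hsecond : proximityG n G T x ≤ κ / 2 * ∑ i, height (x i) + (|c3| / d + c4) := by
    have hS0 : 0 ≤ ∑ i, height (x i) := Finset.sum_nonneg fun i _ => hh i
    by_cases hx' : x ∈ E''
    · have hxF : x ∈ hF2.toFinset := by
        rw [Set.Finite.mem_toFinset]
        exact ⟨hx', hxE⟩
      have h1 : |proximityG n G T x| ≤ c4 := by
        rw [hc4]
        exact Finset.single_le_sum (f := fun x => |proximityG n G T x|)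
          (fun _ _ => abs_nonneg _) hxF
      have h2 := (le_abs_self (proximityG n G T x)).trans h1
      have h3 : 0 ≤ κ / 2 * ∑ i, height (x i) := by positivity
      have h4 : 0 ≤ |c3| / d := by positivity
      linarith
    · have h1 := hc3 x hx' hxG
      rw [proximityG_eq, ← hd]
      have h2 : Pool.Agent.N753.LS.htm x ≤ ∑ i, Height.logHeight₁ (x i) :=
        Pool.Agent.N753.LS.htm_le hm fun i =>
          Finset.single_le_sum (f := fun i => Height.logHeight₁ (x i))
            (fun j _ => Height.zero_le_logHeight₁ _) (Finset.mem_univ i)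
      have h3 : ε' * n ≤ κ / 2 := by
        have := mul_le_mul_of_nonneg_right hε' (show (0 : ℝ) ≤ n by linarith)
        refine this.trans (le_of_eq ?_)
        field_simp
      have h0 : 0 ≤ ∑ i, Height.logHeight₁ (x i) :=
        Finset.sum_nonneg fun i _ => Height.zero_le_logHeight₁ _
      have h4 : ε' * n * Pool.Agent.N753.LS.htm x ≤ κ / 2 * ∑ i, Height.logHeight₁ (x i) := by
        have h5 : ε' * n * Pool.Agent.N753.LS.htm x ≤
            ε' * n * ∑ i, Height.logHeight₁ (x i) :=
          mul_le_mul_of_nonneg_left h2 (by positivity)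
        exact h5.trans (mul_le_mul_of_nonneg_right h3 h0)
      have h5 : ∑ i, height (x i) = (∑ i, Height.logHeight₁ (x i)) / d := by
        unfold height
        rw [← hd, Finset.sum_div]
      have h6 := le_abs_self c3
      have h7 := div_le_div_of_nonneg_right (h1.trans (add_le_add h4 h6)) hd0.le
      refine h7.trans ?_
      rw [h5, add_div, mul_div_assoc]
      linarith
  have hthird : ∑ i, (degree k (y i) - κ) * height (x i) =
      ∑ i, (degree k (y i) - κ / 2) * height (x i) - κ / 2 * ∑ i, height (x i) := by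
    rw [Finset.mul_sum, ← Finset.sum_sub_distrib]
    refine Finset.sum_congr rfl fun i _ => ?_
    ring
  rw [hthird]
  linarith

end Pool.Agent.Results.MP_651af7_nt.UniversalExceptionalSet
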